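import Pool.Agent.H32.Dense.EntX

/-!
# The zigzag (row ZZ of K_GEN)

A chain `W₀, W₁, …, Wₙ` of conditional copies: `Wₖ₊₁` is a copy of `Wₖ` given `(cₖ(C, Wₖ), C)`.
Every `Wₖ` has the law of `W`, and the variables `Y(W₁), …, Y(Wₙ)` are jointly full given `W₀`
as soon as `Y` is full given `(cₖ, C)` for every `k`.
-/

set_option autoImplicit false

namespace Pool.GNZ

open Finset Real
open Pool.Agent.H49.Ent Pool.Agent.H32.Dense

/-- Two variables with the same law have the same entropy. -/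
theorem H_of_law {Ω₁ Ω₂ S : Type} [Fintype Ω₁] [Fintype Ω₂] {p : Ω₁ → ℝ} {q : Ω₂ → ℝ}
    {X : Ω₁ → S} {Y : Ω₂ → S} (h : ∀ s, law p X s = law q Y s) : H p X = H q Y := by
  classical
  rw [H_eq_sum_of_subset p X (F := univ.image X ∪ univ.image Y) Finset.subset_union_left,
    H_eq_sum_of_subset q Y (F := univ.image X ∪ univ.image Y) Finset.subset_union_right]
  exact Finset.sum_congr rfl fun s _ => by rw [h s]

/-- The law of a function of a variable depends on the law of the variable. -/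
theorem law_comp_congr {Ω₁ Ω₂ S T : Type} [Fintype Ω₁] [Fintype Ω₂] {p : Ω₁ → ℝ} {q : Ω₂ → ℝ}
    {X : Ω₁ → S} {Y : Ω₂ → S} (h : ∀ s, law p X s = law q Y s) (f : S → T) (t : T) :
    law p (fun ω => f (X ω)) t = law q (fun ω => f (Y ω)) t := by
  classical
  have key : ∀ {Ω : Type} [Fintype Ω] (p : Ω → ℝ) (X : Ω → S) (F : Finset S),
      univ.image X ⊆ F → law p (fun ω => f (X ω)) t = ∑ s ∈ F, if f s = t then law p X s else 0 := by
    intro Ω _ p X F hF
    have e : ∀ s ∈ F, (if f s = t then law p X s else 0) =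
        ∑ ω, if X ω = s then (if f s = t then p ω else 0) else 0 := by
      intro s _
      unfold law
      by_cases h : f s = t <;> simp [h]
    rw [Finset.sum_congr rfl e, Finset.sum_comm]
    unfold law
    refine Finset.sum_congr rfl fun ω _ => ?_
    rw [Finset.sum_ite_eq F (X ω)]
    rw [if_pos (hF (Finset.mem_image_of_mem X (Finset.mem_univ ω)))]
  rw [key p X (univ.image X ∪ univ.image Y) Finset.subset_union_left,
    key q Y (univ.image X ∪ univ.image Y) Finset.subset_union_right]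
  exact Finset.sum_congr rfl fun s _ => by rw [h s]

theorem H_comp_of_law {Ω₁ Ω₂ S T : Type} [Fintype Ω₁] [Fintype Ω₂] {p : Ω₁ → ℝ} {q : Ω₂ → ℝ}
    {X : Ω₁ → S} {Y : Ω₂ → S} (h : ∀ s, law p X s = law q Y s) (f : S → T) :
    H p (fun ω => f (X ω)) = H q (fun ω => f (Y ω)) :=
  H_of_law fun t => law_comp_congr h f t

theorem CH_comp_of_law {Ω₁ Ω₂ S T U : Type} [Fintype Ω₁] [Fintype Ω₂] {p : Ω₁ → ℝ} {q : Ω₂ → ℝ}
    {X : Ω₁ → S} {Y : Ω₂ → S} (h : ∀ s, law p X s = law q Y s) (f : S → T) (g : S → U) :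
    CH p (fun ω => f (X ω)) (fun ω => g (X ω)) = CH q (fun ω => f (Y ω)) (fun ω => g (Y ω)) := by
  unfold CH
  rw [H_comp_of_law h g]
  congr 1
  exact H_comp_of_law h fun s => (f s, g s)

/-- The zigzag: the chain of conditional copies. -/
theorem zz_chain {Ω 𝒲 𝒞 Γ 𝒴 : Type} [Fintype Ω] (p : Ω → ℝ) (hp : ∀ ω, 0 ≤ p ω)
    (h1 : ∑ ω, p ω = 1) (W : Ω → 𝒲) (C : Ω → 𝒞) (c : ℕ → 𝒞 → 𝒲 → Γ) (Y : 𝒞 → 𝒲 → 𝒴) (n : ℕ) :
    ∃ (Ω' : Type) (_ : Fintype Ω') (p' : Ω' → ℝ) (W' : ℕ → Ω' → 𝒲) (C' : Ω' → 𝒞),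
      (∀ ω, 0 ≤ p' ω) ∧ ∑ ω, p' ω = 1 ∧
      (∀ k ≤ n, ∀ s, law p' (fun ω => (W' k ω, C' ω)) s = law p (fun ω => (W ω, C ω)) s) ∧
      (∀ k < n, ∀ ω, 0 < p' ω → c k (C' ω) (W' (k + 1) ω) = c k (C' ω) (W' k ω)) ∧
      ∑ k ∈ range n, CH p (fun ω => Y (C ω) (W ω)) (fun ω => (c k (C ω) (W ω), C ω)) ≤
        CH p' (fun ω (k : Fin n) => Y (C' ω) (W' (k + 1) ω)) (fun ω => (W' 0 ω, C' ω)) := by
  induction n with
  | zero =>
    refine ⟨Ω, inferInstance, p, fun _ => W, C, hp, h1, fun _ _ _ => rfl,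
      fun k hk => absurd hk (Nat.not_lt_zero k), ?_⟩
    rw [Finset.sum_range_zero]
    exact CH_nonneg hp _ _
  | succ n ih =>
    obtain ⟨Ω', _, p', W', C', hp', h1', hlaw, hc, hY⟩ := ih
    -- the condition
    set Z₁ : Ω' → Γ × 𝒞 := fun ω => (c n (C' ω) (W' n ω), C' ω) with hZ₁
    set Z₂ : Ω → Γ × 𝒞 := fun ω => (c n (C ω) (W ω), C ω) with hZ₂
    have hZ : ∀ z, law p' Z₁ z = law p Z₂ z := fun z =>
      law_comp_congr (hlaw n le_rfl) (fun s : 𝒲 × 𝒞 => (c n s.2 s.1, s.2)) z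
    set q : Ω' × Ω → ℝ := glue p' p Z₁ Z₂ with hq
    have hq0 : ∀ w, 0 ≤ q w := fun w => glue_nonneg hp' hp w
    have hqpos : ∀ w, 0 < q w → 0 < p' w.1 ∧ 0 < p w.2 ∧ Z₁ w.1 = Z₂ w.2 := fun w hw =>
      (glue_pos_iff hp' hp w).1 hw
    set W'' : ℕ → Ω' × Ω → 𝒲 := fun k w => if k ≤ n then W' k w.1 else W w.2 with hW''
    have hle : ∀ k ≤ n, W'' k = fun w => W' k w.1 := fun k hk => by
      funext w
      simp only [hW'', if_pos hk]
    have hgt : W'' (n + 1) = fun w => W w.2 := by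
      funext w
      simp only [hW'', if_neg (Nat.not_succ_le_self n)]
    refine ⟨Ω' × Ω, inferInstance, q, W'', fun w => C' w.1, hq0, ?_, ?_, ?_, ?_⟩
    · rw [hq, sum_glue hp' hZ, h1']
    · intro k hk s
      rcases Nat.lt_or_ge n k with h | h
      · obtain rfl : k = n + 1 := by omega
        rw [hgt]
        have e : law q (fun w => (W w.2, C' w.1)) s = law q (fun w => (W w.2, C w.2)) s := by
          classical
          unfold law
          refine Finset.sum_congr rfl fun w _ => ?_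
          rcases (hq0 w).eq_or_lt with h0 | h0
          · rw [← h0]
            simp
          · have := (Prod.ext_iff.1 (hqpos w h0).2.2).2
            simp only [hZ₁, hZ₂] at this
            by_cases h2 : (W w.2, C w.2) = s
            · rw [if_pos h2, if_pos (by simp only [this]; exact h2)]
            · rw [if_neg h2, if_neg (by simp only [this]; exact h2)]
        rw [e]
        exact law_glue_snd hp hZ (fun ω => (W ω, C ω)) s
      · rw [hle k h]
        have := law_glue_fst hp' hZ (fun ω => (W' k ω, C' ω)) s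
        rw [← hlaw k h s]
        exact this
    · intro k hk w hw
      obtain ⟨a, b, d⟩ := hqpos w hw
      rcases Nat.lt_or_ge k n with h | h
      · rw [hle k h.le, hle (k + 1) h]
        exact hc k h w.1 a
      · obtain rfl : k = n := by omega
        rw [hle k le_rfl, hgt]
        have e1 := (Prod.ext_iff.1 d).1
        have e2 := (Prod.ext_iff.1 d).2
        simp only [hZ₁, hZ₂] at e1 e2
        change c k (C' w.1) (W w.2) = c k (C' w.1) (W' k w.1)
        rw [e1, e2]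
    · rw [Finset.sum_range_succ]
      -- split off the last variable
      have s1 : CH q (fun w (k : Fin (n + 1)) => Y (C' w.1) (W'' (k + 1) w))
          (fun w => (W'' 0 w, C' w.1)) =
          CH q (fun w => ((Y (C w.2) (W w.2)),
            (fun k : Fin n => Y (C' w.1) (W' (k + 1) w.1)))) (fun w => (W' 0 w.1, C' w.1)) := by
        refine CH_congr hq0 ?_ ?_ ?_ ?_
        · intro w w' a b h
          simp only [Prod.mk.injEq] at h
          obtain ⟨h1, -⟩ := h
          refine Prod.ext ?_ ?_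
          · have := congrFun h1 (Fin.last n)
            simp only [Fin.val_last, hgt] at this
            have e2 := (Prod.ext_iff.1 (hqpos w a).2.2).2
            have e3 := (Prod.ext_iff.1 (hqpos w' b).2.2).2
            simp only [hZ₁, hZ₂] at e2 e3
            simp only
            rw [← e2, ← e3]
            exact this
          · funext k
            have := congrFun h1 k.castSucc
            simp only [Fin.val_castSucc] at this
            rw [hle (k + 1) k.2] at this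
            exact this
        · intro w w' a b h
          simp only [Prod.mk.injEq] at h
          obtain ⟨⟨h1, h2⟩, -⟩ := h
          funext k
          have e2 := (Prod.ext_iff.1 (hqpos w a).2.2).2
          have e3 := (Prod.ext_iff.1 (hqpos w' b).2.2).2
          simp only [hZ₁, hZ₂] at e2 e3
          refine Fin.lastCases ?_ (fun k => ?_) k
          · simp only [Fin.val_last, hgt]
            rw [e2, e3]
            exact h1
          · simp only [Fin.val_castSucc]
            rw [hle (k + 1) k.2]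
            exact congrFun h2 k
        · intro w w' _ _ h
          rw [hle 0 (Nat.zero_le n)] at h
          exact h
        · intro w w' _ _ h
          rw [hle 0 (Nat.zero_le n)]
          exact h
      rw [s1, CH_chain hq0]
      have s2 : CH q (fun w => (fun k : Fin n => Y (C' w.1) (W' (k + 1) w.1)))
          (fun w => (W' 0 w.1, C' w.1)) =
          CH p' (fun ω (k : Fin n) => Y (C' ω) (W' (k + 1) ω)) (fun ω => (W' 0 ω, C' ω)) := by
        unfold CH
        congr 1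
        · exact H_glue_fst hp' hZ
            (fun ω => ((fun k : Fin n => Y (C' ω) (W' (k + 1) ω)), (W' 0 ω, C' ω)))
        · exact H_glue_fst hp' hZ (fun ω => (W' 0 ω, C' ω))
      have s3 : CH p (fun ω => Y (C ω) (W ω)) (fun ω => (c n (C ω) (W ω), C ω)) ≤
          CH q (fun w => Y (C w.2) (W w.2)) (fun w =>
            ((fun k : Fin n => Y (C' w.1) (W' (k + 1) w.1)), (W' 0 w.1, C' w.1))) := by
        -- given the whole past
        have s4 : CH q (fun w => Y (C w.2) (W w.2)) (fun w => w.1) ≤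
            CH q (fun w => Y (C w.2) (W w.2)) (fun w =>
            ((fun k : Fin n => Y (C' w.1) (W' (k + 1) w.1)), (W' 0 w.1, C' w.1))) :=
          CH_mono_cond hq0 (fun w w' _ _ h => by
            change w.1 = w'.1 at h
            simp only [h])
        refine le_trans (le_of_eq ?_) s4
        have e1 : CH q (fun w => Y (C w.2) (W w.2)) (fun w => w.1) =
            CH q (fun w => (Y (C w.2) (W w.2), Z₂ w.2)) (fun w => w.1) := by
          refine CH_congr hq0 ?_ ?_ (fun _ _ _ _ h => h) (fun _ _ _ _ h => h)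
          · intro w w' a b h
            simp only [Prod.mk.injEq] at h ⊢
            refine ⟨h.1, ?_⟩
            rw [← (hqpos w a).2.2, ← (hqpos w' b).2.2, h.2]
          · intro w w' a b h
            simp only [Prod.mk.injEq] at h
            exact h.1.1
        rw [e1]
        have e2 : H q (fun w => (w.1, (Y (C w.2) (W w.2), Z₂ w.2))) =
            H p' (fun ω => ω) + H p (fun ω => (Y (C ω) (W ω), Z₂ ω)) - H p' Z₁ :=
          H_glue_pair (X := fun ω : Ω' => ω) (Y := fun ω => (Y (C ω) (W ω), Z₂ ω)) hp' hp hZ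
            (fun ω ω' _ _ h => congrArg Z₁ h) (fun ω ω' _ _ h => (Prod.ext_iff.1 h).2)
        have e3 : H q (fun w => ((Y (C w.2) (W w.2), Z₂ w.2), w.1)) =
            H q (fun w => (w.1, (Y (C w.2) (W w.2), Z₂ w.2))) := by
          refine H_congr hq0 ?_ ?_ <;>
          · intro w w' _ _ h
            simp only [Prod.mk.injEq] at h ⊢
            tauto
        have e4 : H q (fun w => w.1) = H p' (fun ω => ω) := H_glue_fst hp' hZ (fun ω => ω)
        have e5 : H p' Z₁ = H p Z₂ := H_of_law hZ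
        unfold CH
        rw [e3, e2, e4, e5]
        ring
      linarith

/-- Rounding at precision `2 ^ (-X)`. -/
noncomputable def dv {r : ℕ} (X : ℕ) (x : Fin r → ℝ) : Fin r → ℤ := fun i => ⌊(2 : ℝ) ^ X * x i⌋

theorem floor_near {a b c : ℝ} (h : |a - b| ≤ c) : |((⌊a⌋ - ⌊b⌋ : ℤ) : ℝ)| ≤ c + 1 := by
  have h1 := Int.floor_le a
  have h2 := Int.lt_floor_add_one a
  have h3 := Int.floor_le b
  have h4 := Int.lt_floor_add_one b
  obtain ⟨h5, h6⟩ := abs_le.1 h
  rw [abs_le]
  push_cast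
  constructor <;> linarith

theorem near_floor {a b : ℝ} (h : ⌊a⌋ = ⌊b⌋) : |a - b| ≤ 1 := by
  have h1 := Int.floor_le a
  have h2 := Int.lt_floor_add_one a
  have h3 := Int.floor_le b
  have h4 := Int.lt_floor_add_one b
  rw [h] at h1 h2
  rw [abs_le]
  constructor <;> linarith

/-- **The zigzag.**  `cc k` is the vector of the coefficients computed with the `k`-th sample,
`cb` the one computed with another sample, and `cb = cc k + q k (Y)` up to `e` units. -/
theorem zz {Ω 𝒲 𝒞 : Type} [Fintype Ω] (p : Ω → ℝ) (hp : ∀ ω, 0 ≤ p ω)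
    (h1 : ∑ ω, p ω = 1) (W : Ω → 𝒲) (C : Ω → 𝒞) {r m : ℕ} (X n : ℕ)
    (Y : 𝒲 → Fin m → ℝ) (cc : ℕ → 𝒞 → 𝒲 → Fin r → ℝ) (cb : 𝒞 → 𝒲 → Fin r → ℝ)
    (q : ℕ → 𝒞 → (Fin m → ℝ) → Fin r → ℝ) {e : ℝ}
    (hq : ∀ k < n, ∀ ω, 0 < p ω → ∀ i,
      |(2 : ℝ) ^ X * (cb (C ω) (W ω) i - cc k (C ω) (W ω) i - q k (C ω) (Y (W ω)) i)| ≤ e) :
    ∃ (Ω' : Type) (_ : Fintype Ω') (p' : Ω' → ℝ) (Yv : ℕ → Ω' → Fin m → ℝ) (D : Ω' → 𝒲 × 𝒞),
      (∀ ω, 0 ≤ p' ω) ∧ ∑ ω, p' ω = 1 ∧
      (∀ s, law p' D s = law p (fun ω => (W ω, C ω)) s) ∧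
      (∀ ω, Yv 0 ω = Y (D ω).1) ∧
      (∀ k ≤ n, ∀ s, law p' (fun ω => (Yv k ω, (D ω).2)) s =
        law p (fun ω => (Y (W ω), C ω)) s) ∧
      ∑ k ∈ range n, CH p (fun ω => dv X (Y (W ω))) (fun ω => (dv X (cc k (C ω) (W ω)), C ω)) ≤
        CH p' (fun ω (k : Fin n) => dv X (Yv (k + 1) ω)) D ∧
      CH p' (fun ω => dv X (fun i => ∑ k ∈ range n,
          (q k (D ω).2 (Yv (k + 1) ω) i - q k (D ω).2 (Yv k ω) i))) D ≤
        CH p (fun ω => dv X (cb (C ω) (W ω))) C + r * Real.log (4 * n * (1 + 2 * e) + 5) := by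
  obtain ⟨Ω', _, p', W', C', hp', h1', hlaw, hc, hY⟩ := zz_chain p hp h1 W C
    (fun k c w => dv X (cc k c w)) (fun _ w => dv X (Y w)) n
  refine ⟨Ω', inferInstance, p', fun k ω => Y (W' k ω), fun ω => (W' 0 ω, C' ω), hp', h1',
    hlaw 0 (Nat.zero_le n), fun _ => rfl, ?_, hY, ?_⟩
  · intro k hk s
    exact law_comp_congr (hlaw k hk) (fun s : 𝒲 × 𝒞 => (Y s.1, s.2)) s
  -- the identity for the copies
  have hid : ∀ k < n, ∀ j ≤ n, ∀ ω, 0 < p' ω → ∀ i,
      |(2 : ℝ) ^ X * (cb (C' ω) (W' j ω) i - cc k (C' ω) (W' j ω) i -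
        q k (C' ω) (Y (W' j ω)) i)| ≤ e := by
    intro k hk j hj ω hω i
    have h2 : 0 < law p (fun ω => (W ω, C ω)) (W' j ω, C' ω) := by
      rw [← hlaw j hj]
      exact law_pos hp' (fun ω => (W' j ω, C' ω)) hω
    obtain ⟨ω₀, h3, h4⟩ : ∃ ω₀, 0 < p ω₀ ∧ (W ω₀, C ω₀) = (W' j ω, C' ω) := by
      classical
      by_contra hcon
      push Not at hcon
      have : law p (fun ω => (W ω, C ω)) (W' j ω, C' ω) = 0 := by
        unfold law
        refine Finset.sum_eq_zero fun ω _ => ?_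
        split_ifs with h
        · exact le_antisymm (not_lt.mp fun h' => hcon ω h' h) (hp ω)
        · rfl
      rw [this] at h2
      exact lt_irrefl _ h2
    obtain ⟨h5, h6⟩ := Prod.ext_iff.1 h4
    simp only at h5 h6
    rw [← h5, ← h6]
    exact hq k hk ω₀ h3 i
  have hstep : ∀ k < n, ∀ ω, 0 < p' ω → ∀ i,
      |(2 : ℝ) ^ X * (cb (C' ω) (W' (k + 1) ω) i - cb (C' ω) (W' k ω) i -
        (q k (C' ω) (Y (W' (k + 1) ω)) i - q k (C' ω) (Y (W' k ω)) i))| ≤ 1 + 2 * e := by
    intro k hk ω hω i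
    have a1 := hid k hk (k + 1) hk ω hω i
    have a2 := hid k hk k hk.le ω hω i
    have a3 := near_floor (congrFun (hc k hk ω hω) i)
    rw [abs_le] at a1 a2 a3 ⊢
    constructor <;> nlinarith
  have hsum : ∀ ω, 0 < p' ω → ∀ i, |(2 : ℝ) ^ X * (cb (C' ω) (W' n ω) i - cb (C' ω) (W' 0 ω) i -
      ∑ k ∈ range n, (q k (C' ω) (Y (W' (k + 1) ω)) i - q k (C' ω) (Y (W' k ω)) i))| ≤
        n * (1 + 2 * e) := by
    intro ω hω i
    have e1 : (2 : ℝ) ^ X * (cb (C' ω) (W' n ω) i - cb (C' ω) (W' 0 ω) i -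
      ∑ k ∈ range n, (q k (C' ω) (Y (W' (k + 1) ω)) i - q k (C' ω) (Y (W' k ω)) i)) =
      ∑ k ∈ range n, (2 : ℝ) ^ X * (cb (C' ω) (W' (k + 1) ω) i - cb (C' ω) (W' k ω) i -
        (q k (C' ω) (Y (W' (k + 1) ω)) i - q k (C' ω) (Y (W' k ω)) i)) := by
      rw [← Finset.mul_sum, Finset.sum_sub_distrib (f := fun k => cb (C' ω) (W' (k + 1) ω) i -
        cb (C' ω) (W' k ω) i), Finset.sum_range_sub (fun k => cb (C' ω) (W' k ω) i)]
    rw [e1]
    refine (Finset.abs_sum_le_sum_abs _ _).trans ?_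
    refine (Finset.sum_le_sum fun k hk => hstep k (Finset.mem_range.1 hk) ω hω i).trans ?_
    rw [Finset.sum_const, Finset.card_range, nsmul_eq_mul]
  -- the entropies
  have k1 : CH p' (fun ω => dv X (fun i => ∑ k ∈ range n,
          (q k (C' ω) (Y (W' (k + 1) ω)) i - q k (C' ω) (Y (W' k ω)) i)))
        (fun ω => (W' 0 ω, C' ω)) ≤
      CH p' (fun ω => dv X (cb (C' ω) (W' n ω))) (fun ω => (W' 0 ω, C' ω)) +
        r * Real.log (4 * n * (1 + 2 * e) + 5) := by
    refine (CH_le_add hp' _ (fun ω => dv X (cb (C' ω) (W' n ω))) _).trans ?_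
    refine add_le_add le_rfl ?_
    have k2 := CH_le_vec hp' h1' (fun ω => dv X (fun i => ∑ k ∈ range n,
          (q k (C' ω) (Y (W' (k + 1) ω)) i - q k (C' ω) (Y (W' k ω)) i)))
        (fun ω => (dv X (cb (C' ω) (W' n ω)), (W' 0 ω, C' ω)))
        (fun _ => 2 * (n * (1 + 2 * e)) + 2) (by
      intro ω ω' hω hω' h i
      simp only [Prod.mk.injEq] at h
      obtain ⟨h2, h3, h4⟩ := h
      have b1 := hsum ω hω i
      have b2 := hsum ω' hω' i
      have b3 := near_floor (congrFun h2 i)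
      have b4 : |(2 : ℝ) ^ X * (∑ k ∈ range n,
          (q k (C' ω) (Y (W' (k + 1) ω)) i - q k (C' ω) (Y (W' k ω)) i)) -
          (2 : ℝ) ^ X * (∑ k ∈ range n,
          (q k (C' ω') (Y (W' (k + 1) ω')) i - q k (C' ω') (Y (W' k ω')) i))| ≤
          2 * (n * (1 + 2 * e)) + 1 := by
        rw [h3, h4] at b1
        rw [h4] at b3 ⊢
        rw [abs_le] at b1 b2 b3 ⊢
        constructor <;> nlinarith
      refine (floor_near b4).trans (le_of_eq ?_)
      ring)
    refine k2.trans (le_of_eq ?_)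
    rw [Ex_const h1']
    congr 2
    ring
  refine k1.trans (add_le_add ?_ le_rfl)
  have k3 : CH p' (fun ω => dv X (cb (C' ω) (W' n ω))) (fun ω => (W' 0 ω, C' ω)) ≤
      CH p' (fun ω => dv X (cb (C' ω) (W' n ω))) C' :=
    CH_mono_cond hp' fun ω ω' _ _ h => (Prod.ext_iff.1 h).2
  refine k3.trans (le_of_eq ?_)
  exact CH_comp_of_law (hlaw n le_rfl) (fun s : 𝒲 × 𝒞 => dv X (cb s.2 s.1)) (fun s => s.2)

end Pool.GNZ
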