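import Pool.Agent.H42.GN.MomM

/-!
# The zigzag theorem
-/

set_option autoImplicit false

namespace Pool.GNZ

open Finset Real
open Pool.Agent.H49.Ent Pool.Agent.H32.Dense

/-- If every covector is seen by a column, then there is a large maximal minor. -/
theorem minor_of_cov {τ : Type} {δ : ℝ} (hδ : 0 ≤ δ) : ∀ {c : ℕ} (M : Fin c → τ → ℝ),
    (∀ (φ : Fin c → ℝ) (i : Fin c), ∃ t, δ * |φ i| ≤ |∑ k, φ k * M k t|) →
    ∃ σ : Fin c → τ, δ ^ c ≤ |(Matrix.of fun k l => M k (σ l)).det| := by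
  intro c
  induction c with
  | zero =>
    intro M _
    exact ⟨Fin.elim0, by simp⟩
  | succ c ih =>
    intro M h
    obtain ⟨σ, hσ⟩ := ih (fun k => M k.castSucc) (fun φ i => by
      obtain ⟨t, ht⟩ := h (Fin.snoc φ 0) i.castSucc
      refine ⟨t, ?_⟩
      rw [Fin.snoc_castSucc, Fin.sum_univ_castSucc] at ht
      simpa using ht)
    -- the cofactors
    set φ : Fin (c + 1) → ℝ := fun k => (-1) ^ ((k : ℕ) + (Fin.last c : ℕ)) *
      (Matrix.of fun (a : Fin c) (l : Fin c) => M (k.succAbove a) (σ l)).det with hφ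
    have hφl : |φ (Fin.last c)| = |(Matrix.of fun k l => M (Fin.castSucc k) (σ l)).det| := by
      simp only [hφ]
      rw [abs_mul, abs_pow, abs_neg, abs_one, one_pow, one_mul]
      simp only [Fin.succAbove_last]
    obtain ⟨t, ht⟩ := h φ (Fin.last c)
    refine ⟨Fin.snoc σ t, ?_⟩
    have e1 : (Matrix.of fun k l => M k ((Fin.snoc σ t : Fin (c + 1) → τ) l)).det =
        ∑ k, φ k * M k t := by
      rw [Matrix.det_succ_column _ (Fin.last c)]
      refine Finset.sum_congr rfl fun k _ => ?_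
      simp only [Matrix.of_apply, Fin.snoc_last, hφ]
      have e2 : (Matrix.of fun k l => M k ((Fin.snoc σ t : Fin (c + 1) → τ) l)).submatrix
          k.succAbove (Fin.last c).succAbove =
          Matrix.of fun (a : Fin c) (l : Fin c) => M (k.succAbove a) (σ l) := by
        ext a l
        simp only [Matrix.submatrix_apply, Matrix.of_apply, Fin.succAbove_last, Fin.snoc_castSucc]
      rw [e2]
      ring
    rw [e1]
    refine le_trans ?_ ht
    rw [hφl, pow_succ, mul_comm]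
    exact mul_le_mul_of_nonneg_left hσ hδ

/-- **The zigzag theorem.**  `p` is a law on a finite probability space, `C` the context,
`y` the position, `N` the height of the point, `L ω` the leaf through the point (a function of the
position), `G s` the label computed with the `s`-th sample: if two points have the same context and
the same `s`-th label, then their leaves differ by the difference of the polynomials
`∑ B_s γ (z - y) ^ γ`.  If the position is full given every label, and the tensors `B_0 - B_s`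
span all the covectors (quantitatively), then the height is full given the position. -/
theorem zz_full (P c S : ℕ) {Hi : Finset (Fin P → ℕ)} (h0 : (0 : Fin P → ℕ) ∉ Hi) :
    ∃ A : ℝ, 0 ≤ A ∧
    ∀ (Ω 𝒞 𝒢 : Type) [Fintype Ω] (p : Ω → ℝ), (∀ ω, 0 ≤ p ω) → ∑ ω, p ω = 1 →
    ∀ (C : Ω → 𝒞) (y : Ω → Fin P → ℝ) (N : Ω → Fin c → ℝ) (L : Ω → (Fin P → ℝ) → Fin c → ℝ)
      (G : Fin (S + 1) → Ω → 𝒢) (B : Fin (S + 1) → 𝒞 → (Fin P → ℕ) → Fin c → ℝ) (X : ℕ)
      (ε b : ℝ), 1 ≤ X → 0 ≤ ε → 0 ≤ b →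
    (∀ ω, 0 < p ω → ∀ i, |y ω i| ≤ 1) →
    (∀ ω, 0 < p ω → ∀ i, |(2 : ℝ) ^ X * (N ω i - L ω (y ω) i)| ≤ 2 ^ b) →
    (∀ s ω ω', 0 < p ω → 0 < p ω' → G s ω = G s ω' → C ω = C ω' →
      ∀ z : Fin P → ℝ, (∀ j, |z j| ≤ 1) → ∀ i,
      |(2 : ℝ) ^ X * (L ω z i - L ω' z i - ∑ γ ∈ Hi, B s (C ω) γ i *
        (mon γ (fun j => z j - y ω j) - mon γ (fun j => z j - y ω' j)))| ≤ 2 ^ b) →
    (∀ ω, 0 < p ω → ∀ z z' : Fin P → ℝ, (∀ j, |z j| ≤ 1) → (∀ j, |z' j| ≤ 1) → ∀ δ, 0 ≤ δ →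
      (∀ j, |z j - z' j| ≤ δ) → ∀ i, |L ω z i - L ω z' i| ≤ 2 ^ b * δ) →
    (∀ ω, 0 < p ω → ∀ s, ∀ γ ∈ Hi, ∀ i, |B s (C ω) γ i| ≤ 2 ^ b) →
    (∀ ω, 0 < p ω → ∀ (φ : Fin c → ℝ) (i : Fin c), ∃ s : Fin S, ∃ γ ∈ Hi,
      (2 : ℝ) ^ (-b) * |φ i| ≤ |∑ k, φ k * (B 0 (C ω) γ k - B s.succ (C ω) γ k)|) →
    (∀ s, (P - ε) * X * Real.log 2 ≤
      CH p (fun ω => dv X (y ω)) (fun ω => (G s ω, C ω))) →
    (c - A * Real.sqrt (ε + 1 / X)) * X * Real.log 2 - A * b - A ≤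
      CH p (fun ω => dv X (N ω)) (fun ω => (dv X (y ω), C ω)) := by
  obtain ⟨A, hA0, hA⟩ := polyM (P := P) S (R := Hi.card) h0 le_rfl
  obtain ⟨A', hA'0, hA'⟩ := zzh (c := c) hA0 hA
  refine ⟨A' * (c + 1), by positivity, ?_⟩
  intro Ω 𝒞 𝒢 _ p hp h1 C y N L G B X ε b hX hε hb hy hN hL hLip hB hcov hfull
  have hcb : b ≤ (c + 1) * b := by
    have : 0 ≤ c * b := by positivity
    linarith
  have h2b : (2 : ℝ) ^ b ≤ 2 ^ ((c + 1) * b) :=
    Real.rpow_le_rpow_of_exponent_le (by norm_num) hcb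
  have key := hA' Ω 𝒞 𝒢 p hp h1 C y N L G B X ε ((c + 1) * b) hX hε (by positivity) hy
    (fun ω hω i => (hN ω hω i).trans h2b)
    (fun s ω ω' h3 h4 h5 h6 z hz i => (hL s ω ω' h3 h4 h5 h6 z hz i).trans h2b)
    (fun ω hω z z' h3 h4 δ hδ h5 i => (hLip ω hω z z' h3 h4 δ hδ h5 i).trans
      (mul_le_mul_of_nonneg_right h2b hδ))
    (fun ω hω s γ hγ i => (hB ω hω s γ hγ i).trans h2b)
    (fun ω hω => by
      obtain ⟨σ, hσ⟩ := minor_of_cov (τ := Fin S × Hi) (δ := (2 : ℝ) ^ (-b)) (by positivity)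
        (fun k t => B 0 (C ω) t.2.1 k - B t.1.succ (C ω) t.2.1 k) (fun φ i => by
          obtain ⟨s, γ, hγ, h3⟩ := hcov ω hω φ i
          exact ⟨(s, ⟨γ, hγ⟩), h3⟩)
      refine ⟨σ, le_trans ?_ hσ⟩
      rw [← Real.rpow_natCast, ← Real.rpow_mul (by norm_num)]
      refine Real.rpow_le_rpow_of_exponent_le (by norm_num) ?_
      linarith) hfull
  refine le_trans ?_ key
  have hs : 0 ≤ Real.sqrt (ε + 1 / X) := Real.sqrt_nonneg _
  have hlog : 0 ≤ Real.log 2 := Real.log_nonneg (by norm_num)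
  have e1 : 0 ≤ A' * c * Real.sqrt (ε + 1 / X) * X * Real.log 2 := by positivity
  have e2 : 0 ≤ A' * c := by positivity
  nlinarith

end Pool.GNZ
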