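import Pool.Agent.H42.GN.HopA
import Pool.Agent.H42.GN.ZzF

/-!
# Hop orbits

A chain `W₀, …, Wₙ` of conditional copies of a state whose steps are polynomial actions: the state
is at least as full as the orbit of a state under the actions.
-/

set_option autoImplicit false

namespace Pool.GNZ

open Finset Real
open Pool.Agent.H49.Ent Pool.Agent.H32.Dense

/-- The variables of the orbit. -/
noncomputable def ov (n P : ℕ) (k : ℕ) (l : Fin P) : MvPolynomial (Fin (n * P)) ℝ :=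
  if hk : k < n then MvPolynomial.X (finProdFinEquiv (⟨k, hk⟩, l)) else 0

theorem td_ov (n P k : ℕ) (l : Fin P) : (ov n P k l).totalDegree ≤ 1 := by
  unfold ov
  split_ifs
  · exact (MvPolynomial.totalDegree_X _).le
  · rw [MvPolynomial.totalDegree_zero]
    exact Nat.zero_le _

theorem eval_ov {n P k : ℕ} (hk : k < n) (l : Fin P) (z : Fin (n * P) → ℝ) :
    MvPolynomial.eval z (ov n P k l) = z (finProdFinEquiv (⟨k, hk⟩, l)) := by
  unfold ov
  rw [dif_pos hk, MvPolynomial.eval_X]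

theorem eval_ov_le {n P k : ℕ} (l : Fin P) {z : Fin (n * P) → ℝ} (hz : ∀ i, |z i| ≤ 1) :
    |MvPolynomial.eval z (ov n P k l)| ≤ 1 := by
  by_cases hk : k < n
  · rw [eval_ov hk]
    exact hz _
  · unfold ov
    rw [dif_neg hk, map_zero, abs_zero]
    exact zero_le_one

/-- The digits of the points of the chain. -/
noncomputable def yo {Ω : Type} {n P : ℕ} (X : ℕ) (Y : ℕ → Ω → Fin P → ℝ) :
    Ω → Fin (n * P) → ℤ := fun ω q =>
  ⌊(2 : ℝ) ^ X * Y (finProdFinEquiv.symm q).1 ω (finProdFinEquiv.symm q).2⌋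

theorem yo_eq {Ω : Type} {n P : ℕ} (X : ℕ) (Y : ℕ → Ω → Fin P → ℝ) (ω : Ω) {k : ℕ} (hk : k < n)
    (l : Fin P) : yo (n := n) X Y ω (finProdFinEquiv (⟨k, hk⟩, l)) = ⌊(2 : ℝ) ^ X * Y k ω l⌋ := by
  unfold yo
  rw [Equiv.symm_apply_apply]

theorem yo_bd {Ω : Type} {n P : ℕ} (X : ℕ) (Y : ℕ → Ω → Fin P → ℝ) {ω : Ω}
    (hY : ∀ k < n, ∀ l, |Y k ω l| ≤ 1) (q : Fin (n * P)) :
    |((yo X Y ω q : ℤ) : ℝ)| ≤ 2 ^ X := by
  have h2X : (0 : ℝ) < 2 ^ X := by positivity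
  have h3 := abs_le.1 (hY (finProdFinEquiv.symm q).1 (finProdFinEquiv.symm q).1.2
    (finProdFinEquiv.symm q).2)
  rw [abs_le]
  constructor
  · have : (-(2 ^ X) : ℤ) ≤ yo X Y ω q := by
      unfold yo
      refine Int.le_floor.2 ?_
      push_cast
      nlinarith
    exact_mod_cast this
  · refine (Int.floor_le _).trans ?_
    nlinarith

theorem yo_full {Ω T : Type} [Fintype Ω] {n P : ℕ} {p : Ω → ℝ} (hp : ∀ ω, 0 ≤ p ω)
    (X : ℕ) (Y : ℕ → Ω → Fin P → ℝ) (D : Ω → T) :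
    CH p (fun ω (k : Fin n) => dv X (Y k ω)) D ≤ CH p (yo (n := n) X Y) D := by
  refine CH_mono_left hp ?_
  intro ω ω' _ _ h
  simp only [Prod.mk.injEq] at h
  funext k l
  have := congrFun h.1 (finProdFinEquiv (k, l))
  rw [show (k, l) = ((⟨(k : ℕ), k.2⟩ : Fin n), l) from rfl, yo_eq, yo_eq] at this
  exact this

theorem yo_close {Ω : Type} {n P : ℕ} (X : ℕ) (Y : ℕ → Ω → Fin P → ℝ) (ω : Ω) {k : ℕ} (hk : k < n)
    (l : Fin P) : |MvPolynomial.eval (fun i => ((yo (n := n) X Y ω i : ℤ) : ℝ) / 2 ^ X)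
      (ov n P k l) - Y k ω l| ≤ 1 / 2 ^ X := by
  have h2X : (0 : ℝ) < 2 ^ X := by positivity
  rw [eval_ov hk, yo_eq]
  have e0 : |((⌊(2 : ℝ) ^ X * Y k ω l⌋ : ℤ) : ℝ) / 2 ^ X - Y k ω l| * 2 ^ X =
      |((⌊(2 : ℝ) ^ X * Y k ω l⌋ : ℤ) : ℝ) - 2 ^ X * Y k ω l| := by
    rw [← abs_of_pos h2X, ← abs_mul, abs_of_pos h2X, sub_mul, div_mul_cancel₀ _ h2X.ne',
      mul_comm (Y k ω l)]
  rw [le_div_iff₀ h2X, e0, abs_le]
  have e2 := Int.floor_le ((2 : ℝ) ^ X * Y k ω l)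
  have e3 := Int.lt_floor_add_one ((2 : ℝ) ^ X * Y k ω l)
  constructor <;> linarith

/-- The logarithm of the error. -/
theorem log_bd3 {Q : ℝ} (hQ : 1 ≤ Q) {E0 b : ℕ} (hQ2 : Q ≤ 2 ^ (E0 + b)) (f : ℕ) :
    Real.log (2 * (1 + 2 * Q ^ f + 1) + 1) ≤ 4 + f * (E0 + b) := by
  have h1 : 1 ≤ Q ^ f := one_le_pow₀ hQ
  have h2 : Q ^ f ≤ (2 ^ (E0 + b)) ^ f := pow_le_pow_left₀ (by linarith) hQ2 f
  have h3 : (1 : ℝ) ≤ (2 ^ (E0 + b)) ^ f := h1.trans h2
  have hl : Real.log 2 ≤ 1 := by linarith [Real.log_two_lt_d9]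
  calc Real.log (2 * (1 + 2 * Q ^ f + 1) + 1) ≤ Real.log (2 ^ 4 * (2 ^ (E0 + b)) ^ f) := by
        refine Real.log_le_log (by positivity) ?_
        nlinarith
    _ = 4 * Real.log 2 + f * ((E0 + b) * Real.log 2) := by
        rw [Real.log_mul (by positivity) (by positivity), Real.log_pow, Real.log_pow,
          Real.log_pow]
        push_cast
        ring
    _ ≤ 4 + f * (E0 + b) := by
        have h4 : (0 : ℝ) ≤ f * (E0 + b) := by positivity
        nlinarith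

/-- The rounding of the orbit. -/
theorem orb_round {Ω T : Type} [Fintype Ω] {d r m : ℕ} {p : Ω → ℝ} (hp : ∀ ω, 0 ≤ p ω)
    (h1 : ∑ ω, p ω = 1) (X : ℕ) (W : Ω → Fin d → ℝ) (D : Ω → T) (ρ : T → Fin r → Fin d)
    (Pol : T → Fin r → MvPolynomial (Fin m) ℝ) (yy : Ω → Fin m → ℤ) {L : ℝ}
    (h : ∀ ω, 0 < p ω → ∀ j, |W ω (ρ (D ω) j) -
      MvPolynomial.eval (fun i => ((yy ω i : ℤ) : ℝ) / 2 ^ X) (Pol (D ω) j)| ≤ L * (1 / 2 ^ X)) :
    CH p (fun ω j => ⌊2 ^ X * MvPolynomial.eval (fun i => ((yy ω i : ℤ) : ℝ) / 2 ^ X)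
      (Pol (D ω) j)⌋) D ≤ CH p (fun ω => dv X (W ω)) D +
      r * Real.log (2 * (1 + 2 * L + 1) + 1) := by
  have h2X : (0 : ℝ) < 2 ^ X := by positivity
  refine (CH_le_add hp _ (fun ω => dv X (W ω)) _).trans (add_le_add le_rfl ?_)
  refine CH_bdd hp h1 _ _ ?_
  intro ω ω' hω hω' hh j
  simp only [Prod.mk.injEq] at hh
  have h3 := near_floor (congrFun hh.1 (ρ (D ω) j))
  have key : ∀ ω, 0 < p ω → |(2 : ℝ) ^ X * W ω (ρ (D ω) j) - 2 ^ X *
      MvPolynomial.eval (fun i => ((yy ω i : ℤ) : ℝ) / 2 ^ X) (Pol (D ω) j)| ≤ L := by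
    intro ω hω
    have := h ω hω j
    rw [← mul_sub, abs_mul, abs_of_pos h2X]
    calc (2 : ℝ) ^ X * |_| ≤ 2 ^ X * (L * (1 / 2 ^ X)) := mul_le_mul_of_nonneg_left this h2X.le
      _ = L := by field_simp
  have h5 := key ω hω
  have h6 := key ω' hω'
  rw [← hh.2] at h6 ⊢
  refine floor_near ?_
  rw [abs_le] at h3 h5 h6 ⊢
  constructor <;> linarith

/-- **Hop orbits.**  `W` is the state, `y` the position; if two samples have the same context and
the same label `G k`, then the state of the second is the image of the state of the first under a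
polynomial action in the direction of the position of the second.  If the position is full given
every label, the state is at least as full as the rank of the orbit map. -/
theorem hop_full (P d n K r : ℕ) : ∃ A : ℝ, 0 ≤ A ∧
    ∀ (Ω 𝒞 𝒢 : Type) [Fintype Ω] (p : Ω → ℝ), (∀ ω, 0 ≤ p ω) → ∑ ω, p ω = 1 →
    ∀ (C : Ω → 𝒞) (y : Ω → Fin P → ℝ) (W : Ω → Fin d → ℝ) (G : ℕ → Ω → 𝒢)
      (h : ℕ → 𝒞 → Fin d → MvPolynomial (Fin (d + P)) ℝ) (X b : ℕ) (ε : ℝ), 1 ≤ X → 0 ≤ ε →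
    (∀ ω, 0 < p ω → ∀ i, |y ω i| ≤ 1) → (∀ ω, 0 < p ω → ∀ i, |W ω i| ≤ 1) →
    (∀ k c i, (h k c i).totalDegree ≤ K) →
    (∀ k c i m, |MvPolynomial.coeff m (h k c i)| ≤ 2 ^ b) →
    (∀ k < n, ∀ ω ω', 0 < p ω → 0 < p ω' → G k ω = G k ω' → C ω = C ω' → ∀ i,
      |(2 : ℝ) ^ X * (W ω' i - MvPolynomial.eval (Fin.append (W ω) (y ω')) (h k (C ω) i))| ≤
        2 ^ b) →
    (∀ ω, 0 < p ω → ∃ (ρ : Fin r → Fin d) (σ : Fin r → Fin (n * P)) (z : Fin (n * P) → ℝ),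
      (∀ i, |z i| ≤ 1) ∧ (1 / 2 : ℝ) ^ b ≤ |MvPolynomial.eval z
        (Pool.POLY.jac (fun i => orb (fun k => h k (C ω)) (W ω) (ov n P) n (ρ i)) σ)|) →
    (∀ k < n, (P - ε) * X * Real.log 2 ≤
      CH p (fun ω => dv X (y ω)) (fun ω => (G k ω, C ω))) →
    (r - A * Real.sqrt (ε + 1 / X)) * X * Real.log 2 - A * b - A ≤
      CH p (fun ω => dv X (W ω)) C := by
  classical
  obtain ⟨C, hC1, hC⟩ := Pool.POLY.poly_ent (n * P) r (dgo K n)
  obtain ⟨Cc, hCc0, hCc⟩ := Pool.Agent.H36.KBX.coef_bound (n * P) (dgo K n)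
  obtain ⟨c0, hc0⟩ : ∃ c0 : ℕ, Cc < 2 ^ c0 := pow_unbounded_of_one_lt _ (by norm_num)
  obtain ⟨E0, hE0⟩ : ∃ E0 : ℕ, Eo (d + P) K < 2 ^ E0 := pow_unbounded_of_one_lt _ (by norm_num)
  obtain ⟨eE, heE⟩ : ∃ eE, eE = ero K n := ⟨_, rfl⟩
  obtain ⟨fE, hfE⟩ : ∃ fE, fE = fro K n := ⟨_, rfl⟩
  have hC0 : 0 ≤ C := by linarith
  refine ⟨6 * C * Real.sqrt (n + 1) + C * (1 + eE) + r * fE + C * (c0 + E0 * eE + 1) +
    r * (4 + fE * E0), by positivity, ?_⟩
  intro Ω 𝒞 𝒢 _ p hp h1 CC y W G h X b ε hX hε hy hW hdeg hcoef hhop hrank hfull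
  obtain ⟨Ω', _, p', W', C', hp', h1', hlaw, hc, hY⟩ := zz_chain p hp h1 (fun ω : Ω => ω) CC
    (fun k _ ω => if k < n then some (G k ω) else none) (fun _ ω => dv X (y ω)) n
  have hs : ∀ k ≤ n, ∀ ω, 0 < p' ω → 0 < p (W' k ω) ∧ CC (W' k ω) = C' ω := by
    intro k hk ω hω
    obtain ⟨ω₀, h2, h3⟩ := supp_of_law hp' hp (hlaw k hk) hω
    simp only [Prod.mk.injEq] at h3
    obtain ⟨h5, h4⟩ := h3
    rw [← h5]
    exact ⟨h2, h4⟩
  have hX1 : (1 : ℝ) ≤ X := by exact_mod_cast hX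
  have hX0 : (0 : ℝ) < X := by linarith
  have h2X : (0 : ℝ) < 2 ^ X := by positivity
  have hlog2 : 0 < Real.log 2 := Real.log_pos (by norm_num)
  have hlog2a : 1 / 2 ≤ Real.log 2 := by linarith [Real.log_two_gt_d9]
  have hlog2b : Real.log 2 ≤ 1 := by linarith [Real.log_two_lt_d9]
  -- the choice of the minors
  obtain ⟨ω₀, hω₀⟩ : ∃ ω, 0 < p ω := by
    by_contra hcon
    push Not at hcon
    have : ∑ ω, p ω = 0 := Finset.sum_eq_zero fun ω _ => le_antisymm (hcon ω) (hp ω)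
    rw [h1] at this
    exact one_ne_zero this
  obtain ⟨ρ₀, σ₀, -, -⟩ := hrank ω₀ hω₀
  have hsel : ∀ ω, ∃ (ρ : Fin r → Fin d) (σ : Fin r → Fin (n * P)), 0 < p ω →
      ∃ z : Fin (n * P) → ℝ, (∀ i, |z i| ≤ 1) ∧ (1 / 2 : ℝ) ^ b ≤ |MvPolynomial.eval z
        (Pool.POLY.jac (fun i => orb (fun k => h k (CC ω)) (W ω) (ov n P) n (ρ i)) σ)| := by
    intro ω
    by_cases hω : 0 < p ω
    · obtain ⟨ρ, σ, z, h2, h3⟩ := hrank ω hω
      exact ⟨ρ, σ, fun _ => ⟨z, h2, h3⟩⟩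
    · exact ⟨ρ₀, σ₀, fun h2 => absurd h2 hω⟩
  choose ρ σ hρσ using hsel
  obtain ⟨D, hD⟩ : ∃ D : Ω' → Ω × 𝒞, D = fun ω => (W' 0 ω, C' ω) := ⟨_, rfl⟩
  obtain ⟨Pol, hPol⟩ : ∃ Pol : Ω × 𝒞 → Fin r → MvPolynomial (Fin (n * P)) ℝ, Pol = fun c i =>
      if 0 < p c.1 then orb (fun k => h k c.2) (W c.1) (ov n P) n (ρ c.1 i) else 0 := ⟨_, rfl⟩
  -- the sizes
  set B : ℝ := 2 ^ b with hB
  have hB1 : 1 ≤ B := one_le_pow₀ (by norm_num)
  set Q : ℝ := Eo (d + P) K * B with hQ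
  have hEo := Eo_le (d + P) K
  have hQ1 : 1 ≤ Q := by nlinarith [hEo.1]
  have hQ2 : Q ≤ 2 ^ (E0 + b) := by
    rw [pow_add]
    exact mul_le_mul_of_nonneg_right hE0.le (by positivity)
  have hPdeg : ∀ c j, (Pol c j).totalDegree ≤ dgo K n := by
    intro c j
    rw [hPol]
    dsimp only
    split_ifs
    · exact td_orb _ _ _ (fun k i => hdeg k _ i) (fun k l => td_ov n P k l) n _
    · rw [MvPolynomial.totalDegree_zero]
      exact Nat.zero_le _
  have hPco : ∀ c j m, |MvPolynomial.coeff m (Pol c j)| ≤ 2 ^ (c0 + (E0 + b) * eE) := by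
    intro c j m
    have h2 : ∀ z : Fin (n * P) → ℝ, (∀ i, |z i| ≤ 1) → |MvPolynomial.eval z (Pol c j)| ≤
        Q ^ eE := by
      intro z hz
      rw [hPol]
      dsimp only
      split_ifs with hpc
      · rw [heE]
        exact orb_bd _ _ _ hB1 (fun k i => hdeg k _ i) (fun k i m => hcoef k _ i m)
          (fun i => hW _ hpc i) z (fun k l => eval_ov_le l hz) n _
      · rw [map_zero, abs_zero]
        positivity
    refine (hCc _ _ (hPdeg c j) h2 m).trans ?_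
    rw [pow_add, pow_mul]
    refine mul_le_mul hc0.le (pow_le_pow_left₀ (by linarith) hQ2 _) (by positivity) (by positivity)
  -- the positions
  obtain ⟨Yv, hYv⟩ : ∃ Yv : ℕ → Ω' → Fin P → ℝ, Yv = fun k ω => y (W' (k + 1) ω) := ⟨_, rfl⟩
  have hYv1 : ∀ ω, 0 < p' ω → ∀ k < n, ∀ l, |Yv k ω l| ≤ 1 := by
    intro ω hω k hk l
    rw [hYv]
    exact hy _ (hs (k + 1) hk ω hω).1 l
  have hyfull : ((n * P : ℕ) : ℝ) * (X * Real.log 2) - (n * ε) * (X * Real.log 2) ≤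
      CH p' (yo (n := n) X Yv) D := by
    have h2 : ∑ k ∈ range n, (P - ε) * X * Real.log 2 ≤
        ∑ k ∈ range n, CH p (fun ω => dv X (y ω))
          (fun ω => (if k < n then some (G k ω) else none, CC ω)) := by
      refine Finset.sum_le_sum fun k hk => ?_
      have hk' := Finset.mem_range.1 hk
      refine (hfull k hk').trans (le_of_eq ?_)
      simp only [if_pos hk']
      refine CH_congr hp ?_ ?_ ?_ ?_
      · intro ω ω' _ _ h
        exact (Prod.mk.inj h).1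
      · intro ω ω' _ _ h
        exact (Prod.mk.inj h).1
      · intro ω ω' _ _ h
        simp only [Prod.mk.injEq] at h ⊢
        exact ⟨congrArg some h.1, h.2⟩
      · intro ω ω' _ _ h
        simp only [Prod.mk.injEq, Option.some.injEq] at h ⊢
        exact h
    rw [Finset.sum_const, Finset.card_range, nsmul_eq_mul] at h2
    have h3 := yo_full (n := n) hp' X Yv D
    rw [hYv, hD] at h3
    have h4 := h2.trans (hY.trans h3)
    rw [← hD, ← hYv] at h4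
    refine le_trans (le_of_eq ?_) h4
    push_cast
    ring
  -- the number of digits of Remez
  obtain ⟨tt, htt⟩ : ∃ tt : ℝ, tt = Real.sqrt (n * ε + 1 / X) := ⟨_, rfl⟩
  have hq : 0 < n * ε + 1 / (X : ℝ) := by positivity
  have htt0 : 0 < tt := by
    rw [htt]
    exact Real.sqrt_pos.2 hq
  obtain ⟨un, hun⟩ : ∃ un : ℕ, un = ⌈(X : ℝ) * tt⌉₊ := ⟨_, rfl⟩
  have hun1 : (X : ℝ) * tt ≤ un := by
    rw [hun]
    exact Nat.le_ceil _
  have hun2 : (un : ℝ) ≤ X * tt + 1 := by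
    rw [hun]
    exact (Nat.ceil_lt_add_one (by positivity)).le
  have hun3 : 1 ≤ un := Nat.one_le_iff_ne_zero.2 (by
    intro h
    rw [h, Nat.cast_zero] at hun1
    have : 0 < (X : ℝ) * tt := by positivity
    linarith)
  have key := hC Ω' (Ω × 𝒞) p' X 0 b (c0 + (E0 + b) * eE) un (yo (n := n) X Yv) D Pol
    (fun c => σ c.1) (n * ε * (X * Real.log 2)) ⟨hp', h1'⟩ hun3 (by positivity)
    (fun ω hω i => by
      rw [pow_zero, one_mul]
      exact yo_bd X Yv (hYv1 ω hω) i) hPdeg hPco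
    (fun ω hω => by
      obtain ⟨c1, c2⟩ := hs 0 (Nat.zero_le _) ω hω
      obtain ⟨z, h2, h3⟩ := hρσ (W' 0 ω) c1
      refine ⟨z, fun i => by rw [pow_zero]; exact h2 i, ?_⟩
      have e1 : Pol (D ω) = fun i => orb (fun k => h k (CC (W' 0 ω))) (W (W' 0 ω)) (ov n P) n
          (ρ (W' 0 ω) i) := by
        funext i
        rw [hPol, hD]
        dsimp only
        rw [if_pos c1, c2]
      rw [e1, hD]
      exact h3) hyfull
  rw [htt] at hun1 hun2
  have hla := loss_arith (X := X) (ε := n * ε) (C := C) (A0 := ((0 : ℕ) : ℝ)) (a := b)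
    (b := ((c0 + (E0 + b) * eE : ℕ) : ℝ)) (u := un)
    (L := Real.log 2) hX1 (by positivity) hC0 (Nat.cast_nonneg _) hlog2a hlog2b
    (by positivity) hun1 hun2
  -- the rounding
  have hst : ∀ ω, 0 < p' ω → ∀ j, |W (W' n ω) (ρ (D ω).1 j) -
      MvPolynomial.eval (fun i => ((yo (n := n) X Yv ω i : ℤ) : ℝ) / 2 ^ X) (Pol (D ω) j)| ≤
        Q ^ fE * (1 / 2 ^ X) := by
    intro ω hω j
    obtain ⟨c1, c2⟩ := hs 0 (Nat.zero_le _) ω hω
    have e1 : Pol (D ω) j = orb (fun k => h k (C' ω)) (W (W' 0 ω)) (ov n P) n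
        (ρ (D ω).1 j) := by
      rw [hPol, hD]
      dsimp only
      rw [if_pos c1]
    rw [e1, hfE]
    refine orb_err (n := n) (fun k => h k (C' ω)) (W (W' 0 ω)) (ov n P) hB1 (by positivity)
      (fun k i => hdeg k _ i) (fun k i m => hcoef k _ i m) _ (fun k l => eval_ov_le l fun i => ?_)
      (fun k => W (W' k ω)) (fun k => Yv k ω) rfl (fun k hk i => hW _ (hs k hk ω hω).1 i)
      (hYv1 ω hω) (fun k hk l => yo_close X Yv ω hk l) (fun k hk i => ?_) n le_rfl _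
    · rw [abs_div, abs_of_pos h2X, div_le_one h2X]
      exact yo_bd X Yv (hYv1 ω hω) i
    · obtain ⟨c3, c4⟩ := hs (k + 1) hk ω hω
      obtain ⟨c5, c6⟩ := hs k hk.le ω hω
      have h2 := hc k hk ω hω
      simp only [if_pos hk, Option.some.injEq] at h2
      have h3 := hhop k hk (W' k ω) (W' (k + 1) ω) c5 c3 h2.symm (c6.trans c4.symm) i
      rw [c6, abs_mul, abs_of_pos h2X] at h3
      rw [mul_one_div, le_div_iff₀ h2X, hYv, mul_comm]
      exact h3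
  have hround := orb_round hp' h1' X (fun ω => W (W' n ω)) D (fun c => ρ c.1) Pol
    (yo (n := n) X Yv) hst
  have hlog := log_bd3 hQ1 hQ2 fE
  have f8 : CH p' (fun ω => dv X (W (W' n ω))) D ≤ CH p (fun ω => dv X (W ω)) CC := by
    have a1 : CH p' (fun ω => dv X (W (W' n ω))) D ≤ CH p' (fun ω => dv X (W (W' n ω))) C' := by
      refine CH_mono_cond hp' ?_
      intro ω ω' _ _ h
      rw [hD] at h
      exact (Prod.mk.inj h).2
    refine a1.trans (le_of_eq ?_)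
    exact CH_comp_of_law (hlaw n le_rfl) (fun s : Ω × 𝒞 => dv X (W s.1)) (fun s => s.2)
  have hsq : Real.sqrt (n * ε + 1 / X) ≤ Real.sqrt (n + 1) * Real.sqrt (ε + 1 / X) := by
    rw [← Real.sqrt_mul (by positivity)]
    refine Real.sqrt_le_sqrt ?_
    have e1 : (0 : ℝ) ≤ n * (1 / X) := by positivity
    nlinarith
  have hs0 : 0 ≤ Real.sqrt (ε + 1 / X) := Real.sqrt_nonneg _
  set sq := Real.sqrt (ε + 1 / X) with hsq'
  have g1 : (4 * C + 2 * C * (((0 : ℕ) : ℝ) + 1)) * Real.sqrt (n * ε + 1 / X) * (X * Real.log 2) ≤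
      6 * C * (Real.sqrt (n + 1) * sq) * (X * Real.log 2) := by
    refine mul_le_mul_of_nonneg_right ?_ (by positivity)
    have : 6 * C * Real.sqrt (n * ε + 1 / X) ≤ 6 * C * (Real.sqrt (n + 1) * sq) :=
      mul_le_mul_of_nonneg_left hsq (by positivity)
    rw [Nat.cast_zero]
    linarith
  have g2 := mul_le_mul_of_nonneg_left hlog (Nat.cast_nonneg (α := ℝ) r)
  have g3 : 0 ≤ (C * (1 + eE) + r * fE + C * (c0 + E0 * eE + 1) + r * (4 + fE * E0)) *
      (sq * (X * Real.log 2)) := by positivity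
  have g4 : 0 ≤ (6 * C * Real.sqrt (n + 1) + C * (c0 + E0 * eE + 1) + r * (4 + fE * E0)) *
      (b : ℝ) := by positivity
  have g5 : 0 ≤ 6 * C * Real.sqrt (n + 1) + C * (1 + eE) + r * fE := by positivity
  have g6 : (r - (6 * C * Real.sqrt (n + 1) + C * (1 + eE) + r * fE + C * (c0 + E0 * eE + 1) +
      r * (4 + fE * E0)) * sq) * X * Real.log 2 = r * (X * Real.log 2) -
      6 * C * (Real.sqrt (n + 1) * sq) * (X * Real.log 2) -
      (C * (1 + eE) + r * fE + C * (c0 + E0 * eE + 1) + r * (4 + fE * E0)) *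
      (sq * (X * Real.log 2)) := by ring
  have g7 : (6 * C * Real.sqrt (n + 1) + C * (1 + eE) + r * fE + C * (c0 + E0 * eE + 1) +
      r * (4 + fE * E0)) * (b : ℝ) = (6 * C * Real.sqrt (n + 1) + C * (c0 + E0 * eE + 1) +
      r * (4 + fE * E0)) * (b : ℝ) + (C * (1 + eE) + r * fE) * b := by ring
  have g8 : C * ((b : ℝ) + ((c0 + (E0 + b) * eE : ℕ) : ℝ) + ((0 : ℕ) : ℝ) + 1) =
      C * (1 + eE) * b + C * (c0 + E0 * eE + 1) := by
    push_cast
    ring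
  have g9 : (r : ℝ) * (4 + fE * (E0 + b)) = r * fE * b + r * (4 + fE * E0) := by ring
  rw [g6, g7]
  rw [g8] at hla
  rw [g9] at g2
  linarith

end Pool.GNZ
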