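import Pool.Agent.H89.GEN.PolyA
import Pool.Agent.H36.KBX.Coef

/-!
# Orbits of polynomial actions
-/

set_option autoImplicit false

namespace Pool.GNZ

open Finset MvPolynomial

theorem td_bind_le {σ τ : Type*} (f : σ → MvPolynomial τ ℝ) {D : ℕ}
    (hf : ∀ i, (f i).totalDegree ≤ D) (p : MvPolynomial σ ℝ) :
    (bind₁ f p).totalDegree ≤ p.totalDegree * D := by
  classical
  conv_lhs => rw [p.as_sum, map_sum]
  refine (totalDegree_finsetSum _ _).trans (Finset.sup_le fun s hs => ?_)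
  rw [bind₁_monomial]
  refine (totalDegree_mul _ _).trans ?_
  rw [totalDegree_C, zero_add]
  refine (totalDegree_finsetProd _ _).trans ?_
  refine le_trans ?_ (Nat.mul_le_mul_right D (le_totalDegree hs))
  rw [Finsupp.sum, Finset.sum_mul]
  refine Finset.sum_le_sum fun i _ => ?_
  exact (totalDegree_pow _ _).trans (Nat.mul_le_mul_left _ (hf i))

/-- The orbit of the point `w` under the polynomial actions `h 0, …, h (k - 1)`. -/
noncomputable def orb {τ : Type} {d P : ℕ} (h : ℕ → Fin d → MvPolynomial (Fin (d + P)) ℝ)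
    (w : Fin d → ℝ) (v : ℕ → Fin P → MvPolynomial τ ℝ) : ℕ → Fin d → MvPolynomial τ ℝ
  | 0 => fun i => C (w i)
  | k + 1 => fun i => bind₁ (Fin.append (orb h w v k) (v k)) (h k i)

section

variable {τ : Type} {d P : ℕ} (h : ℕ → Fin d → MvPolynomial (Fin (d + P)) ℝ)
  (w : Fin d → ℝ) (v : ℕ → Fin P → MvPolynomial τ ℝ)

theorem eval_orb_zero (z : τ → ℝ) (i : Fin d) : eval z (orb h w v 0 i) = w i := by
  unfold orb
  rw [eval_C]

theorem eval_orb_succ (z : τ → ℝ) (k : ℕ) (i : Fin d) :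
    eval z (orb h w v (k + 1) i) =
      eval (Fin.append (fun i => eval z (orb h w v k i)) (fun l => eval z (v k l))) (h k i) := by
  have e : (fun j => eval z ((Fin.append (orb h w v k) (v k) : Fin (d + P) → _) j)) =
      Fin.append (fun i => eval z (orb h w v k i)) (fun l => eval z (v k l)) := by
    funext j
    refine Fin.addCases (fun i => ?_) (fun l => ?_) j
    · rw [Fin.append_left, Fin.append_left]
    · rw [Fin.append_right, Fin.append_right]
  rw [← e]
  change eval z (bind₁ (Fin.append (orb h w v k) (v k)) (h k i)) = _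
  rw [← coe_aeval_eq_eval, ← coe_aeval_eq_eval]
  exact aeval_bind₁ _ _ _

/-- The degrees of the orbit. -/
def dgo (K : ℕ) : ℕ → ℕ
  | 0 => 0
  | k + 1 => K * (dgo K k + 1)

theorem td_orb {K : ℕ} (hK : ∀ k i, (h k i).totalDegree ≤ K) (hv : ∀ k l, (v k l).totalDegree ≤ 1)
    (k : ℕ) (i : Fin d) : (orb h w v k i).totalDegree ≤ dgo K k := by
  induction k generalizing i with
  | zero =>
    unfold orb
    rw [totalDegree_C]
    exact Nat.zero_le _
  | succ k ih =>
    have e : ∀ j, ((Fin.append (orb h w v k) (v k) : Fin (d + P) → _) j).totalDegree ≤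
        dgo K k + 1 := by
      intro j
      refine Fin.addCases (fun i => ?_) (fun l => ?_) j
      · rw [Fin.append_left]
        exact (ih i).trans (Nat.le_succ _)
      · rw [Fin.append_right]
        exact (hv k l).trans (Nat.le_add_left _ _)
    refine (td_bind_le _ e _).trans ?_
    exact Nat.mul_le_mul_right _ (hK k i)

/-- The exponents of the sizes of the orbit. -/
def ero (K : ℕ) : ℕ → ℕ
  | 0 => 0
  | k + 1 => 1 + K * ero K k

/-- The exponents of the errors of the orbit. -/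
def fro (K : ℕ) : ℕ → ℕ
  | 0 => 0
  | k + 1 => ero K (k + 1) + fro K k + 1

/-- The constant of the orbit. -/
noncomputable def Eo (n K : ℕ) : ℝ := 2 * ((n + 1) * (K + 1) ^ (n + 1))

theorem Eo_le (n K : ℕ) : 2 ≤ Eo n K ∧ (K + 1 : ℝ) ^ n ≤ Eo n K ∧
    (n : ℝ) * (K + 1) ^ (n + 1) ≤ Eo n K := by
  have hK : (1 : ℝ) ≤ K + 1 := by
    have : (0 : ℝ) ≤ K := Nat.cast_nonneg K
    linarith
  have h1 : (1 : ℝ) ≤ (K + 1) ^ (n + 1) := one_le_pow₀ hK
  have hn : (0 : ℝ) ≤ n := Nat.cast_nonneg n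
  have h2 : (K + 1 : ℝ) ^ n ≤ (K + 1) ^ (n + 1) := pow_le_pow_right₀ hK (Nat.le_succ n)
  unfold Eo
  refine ⟨by nlinarith, by nlinarith, by nlinarith⟩

theorem pw_ero (Q : ℝ) (K k : ℕ) : Q ^ ero K (k + 1) = Q * (Q ^ ero K k) ^ K := by
  change Q ^ (1 + K * ero K k) = _
  rw [pow_add, pow_one, mul_comm K, pow_mul]

theorem pw_fro (Q : ℝ) (K k : ℕ) : Q ^ fro K (k + 1) = Q * (Q ^ ero K (k + 1) * Q ^ fro K k) := by
  change Q ^ (ero K (k + 1) + fro K k + 1) = _
  rw [pow_add, pow_add, pow_one]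
  ring

theorem orb_bd {K : ℕ} {B : ℝ} (hB1 : 1 ≤ B) (hK : ∀ k i, (h k i).totalDegree ≤ K)
    (hB : ∀ k i m, |coeff m (h k i)| ≤ B) (hw : ∀ i, |w i| ≤ 1) (z : τ → ℝ)
    (hz : ∀ k l, |eval z (v k l)| ≤ 1) (k : ℕ) (i : Fin d) :
    |eval z (orb h w v k i)| ≤ (Eo (d + P) K * B) ^ ero K k := by
  obtain ⟨hE2, hEn, -⟩ := Eo_le (d + P) K
  have hQ : 1 ≤ Eo (d + P) K * B := by nlinarith
  induction k generalizing i with
  | zero =>
    rw [eval_orb_zero]
    exact hw i
  | succ k ih =>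
    rw [eval_orb_succ]
    have ha : 1 ≤ (Eo (d + P) K * B) ^ ero K k := one_le_pow₀ hQ
    refine (Pool.POLY.abs_eval_le (h k i) (hK k i) (hB k i) ha _ (fun j => ?_)).trans ?_
    · refine Fin.addCases (fun i => ?_) (fun l => ?_) j
      · rw [Fin.append_left]
        exact ih i
      · rw [Fin.append_right]
        exact (hz k l).trans ha
    · rw [pw_ero]
      have h1 : (0 : ℝ) ≤ ((Eo (d + P) K * B) ^ ero K k) ^ K := by positivity
      calc (K + 1 : ℝ) ^ (d + P) * (B * ((Eo (d + P) K * B) ^ ero K k) ^ K)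
          = ((K + 1 : ℝ) ^ (d + P) * B) * ((Eo (d + P) K * B) ^ ero K k) ^ K := by ring
        _ ≤ (Eo (d + P) K * B) * ((Eo (d + P) K * B) ^ ero K k) ^ K :=
            mul_le_mul_of_nonneg_right (mul_le_mul_of_nonneg_right hEn (by linarith)) h1

/-- The orbit follows the true states. -/
theorem orb_err {K n : ℕ} {B η : ℝ} (hB1 : 1 ≤ B) (hη : 0 ≤ η)
    (hK : ∀ k i, (h k i).totalDegree ≤ K)
    (hB : ∀ k i m, |coeff m (h k i)| ≤ B) (z : τ → ℝ) (hz : ∀ k l, |eval z (v k l)| ≤ 1)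
    (W : ℕ → Fin d → ℝ) (Y : ℕ → Fin P → ℝ) (hW0 : W 0 = w)
    (hW : ∀ k ≤ n, ∀ i, |W k i| ≤ 1) (hY : ∀ k < n, ∀ l, |Y k l| ≤ 1)
    (hYz : ∀ k < n, ∀ l, |eval z (v k l) - Y k l| ≤ η)
    (hst : ∀ k < n, ∀ i, |W (k + 1) i - eval (Fin.append (W k) (Y k)) (h k i)| ≤ B * η)
    (k : ℕ) (hk : k ≤ n) (i : Fin d) :
    |W k i - eval z (orb h w v k i)| ≤ (Eo (d + P) K * B) ^ fro K k * η := by
  obtain ⟨hE2, -, hEn⟩ := Eo_le (d + P) K
  have hQ : 1 ≤ Eo (d + P) K * B := by nlinarith
  have hQ2 : 2 ≤ Eo (d + P) K * B := by nlinarith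
  have hBQ : B ≤ Eo (d + P) K * B := by nlinarith
  have hw : ∀ i, |w i| ≤ 1 := fun i => by rw [← hW0]; exact hW 0 (Nat.zero_le _) i
  induction k generalizing i with
  | zero =>
    rw [eval_orb_zero, hW0, sub_self, abs_zero]
    positivity
  | succ k ih =>
    rw [eval_orb_succ]
    set Q := Eo (d + P) K * B with hQdef
    have ha : 1 ≤ Q ^ ero K k := one_le_pow₀ hQ
    have hf : 1 ≤ Q ^ fro K k := one_le_pow₀ hQ
    -- the Lipschitz estimate
    set x : Fin (d + P) → ℝ := Fin.append (W k) (Y k) with hx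
    set x' : Fin (d + P) → ℝ :=
      Fin.append (fun i => eval z (orb h w v k i)) (fun l => eval z (v k l)) with hx'
    have hlip := Pool.POLY.seg_le (h k i) (hK k i) (hB k i) ha x (fun j => x' j - x j)
      (V := Q ^ fro K k * η) (fun j => by
        rw [hx]
        refine Fin.addCases (fun i => ?_) (fun l => ?_) j
        · rw [Fin.append_left]
          exact (hW k (by omega) i).trans ha
        · rw [Fin.append_right]
          exact (hY k (by omega) l).trans ha) (fun j => by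
        rw [add_sub_cancel, hx']
        refine Fin.addCases (fun i => ?_) (fun l => ?_) j
        · rw [Fin.append_left]
          exact orb_bd h w v hB1 hK hB hw z hz k i
        · rw [Fin.append_right]
          exact (hz k l).trans ha) (fun j => by
        rw [hx, hx']
        refine Fin.addCases (fun i => ?_) (fun l => ?_) j
        · rw [Fin.append_left, Fin.append_left, abs_sub_comm]
          exact ih (by omega) i
        · rw [Fin.append_right, Fin.append_right]
          refine (hYz k (by omega) l).trans ?_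
          exact le_mul_of_one_le_left hη hf) 1 ⟨zero_le_one, le_rfl⟩
    have e1 : (fun j => x j + 1 * (x' j - x j)) = x' := by
      funext j
      ring
    rw [e1] at hlip
    have h1 : |W (k + 1) i - eval x' (h k i)| ≤
        |W (k + 1) i - eval x (h k i)| + |eval x' (h k i) - eval x (h k i)| := by
      have : W (k + 1) i - eval x' (h k i) =
          (W (k + 1) i - eval x (h k i)) - (eval x' (h k i) - eval x (h k i)) := by ring
      rw [this]
      exact abs_sub _ _
    refine h1.trans ((add_le_add (hst k (by omega) i) hlip).trans ?_)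
    have hdP : ((d + P : ℕ) : ℝ) * ((K + 1 : ℝ) ^ (d + P + 1) * (B * (Q ^ ero K k) ^ K)) ≤
        Q ^ ero K (k + 1) := by
      rw [pw_ero]
      have h2 : (0 : ℝ) ≤ (Q ^ ero K k) ^ K := by positivity
      calc ((d + P : ℕ) : ℝ) * ((K + 1 : ℝ) ^ (d + P + 1) * (B * (Q ^ ero K k) ^ K))
          = (((d + P : ℕ) : ℝ) * (K + 1 : ℝ) ^ (d + P + 1)) * B * (Q ^ ero K k) ^ K := by ring
        _ ≤ Q * (Q ^ ero K k) ^ K :=
            mul_le_mul_of_nonneg_right (mul_le_mul_of_nonneg_right hEn (by linarith)) h2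
    have h3 : ((d + P : ℕ) : ℝ) * ((K + 1 : ℝ) ^ (d + P + 1) * (B * (Q ^ ero K k) ^ K)) *
        (Q ^ fro K k * η) ≤ Q ^ ero K (k + 1) * (Q ^ fro K k * η) :=
      mul_le_mul_of_nonneg_right hdP (by positivity)
    have h4 : B * η ≤ Q ^ ero K (k + 1) * (Q ^ fro K k * η) := by
      have h5 : Q ≤ Q ^ ero K (k + 1) * Q ^ fro K k := by
        have h6 : Q ≤ Q ^ ero K (k + 1) := by
          rw [pw_ero]
          exact le_mul_of_one_le_right (by linarith) (one_le_pow₀ ha)
        exact h6.trans (le_mul_of_one_le_right (by positivity) hf)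
      calc B * η ≤ (Q ^ ero K (k + 1) * Q ^ fro K k) * η :=
            mul_le_mul_of_nonneg_right (hBQ.trans h5) hη
        _ = _ := by ring
    have h7 : 0 ≤ Q ^ ero K (k + 1) * (Q ^ fro K k * η) := by positivity
    calc B * η + ((d + P : ℕ) : ℝ) * ((K + 1 : ℝ) ^ (d + P + 1) * (B * (Q ^ ero K k) ^ K)) *
        (Q ^ fro K k * η) ≤ 2 * (Q ^ ero K (k + 1) * (Q ^ fro K k * η)) := by linarith
      _ ≤ Q * (Q ^ ero K (k + 1) * (Q ^ fro K k * η)) := mul_le_mul_of_nonneg_right hQ2 h7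
      _ = Q ^ fro K (k + 1) * η := by
          rw [pw_fro]
          ring

end

end Pool.GNZ
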