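import Pool.Agent.H42.GN.Zz

/-!
# Linear images of full vectors (for the zigzag)
-/

set_option autoImplicit false

namespace Pool.GNZ

open Finset Real Matrix
open Pool.Agent.H49.Ent Pool.Agent.H32.Dense

/-- Cramer's rule with bounds. -/
theorem cramer_bound {c : ℕ} (A : Matrix (Fin c) (Fin c) ℝ) {K δ : ℝ} (hK : 1 ≤ K)
    (hA : ∀ i j, |A i j| ≤ K) (hδ : 0 < δ) (hdet : δ ≤ |A.det|) (u : Fin c → ℝ) {v : ℝ}
    (hv : ∀ i, |(A *ᵥ u) i| ≤ v) (j : Fin c) : |u j| ≤ c * (c.factorial * K ^ c) * v / δ := by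
  have hadj : ∀ i j, |A.adjugate i j| ≤ c.factorial * K ^ c := by
    intro i j
    rw [Matrix.adjugate_apply]
    have := Matrix.det_le (A := A.updateRow j (Pi.single i 1)) (abv := AbsoluteValue.abs)
      (x := K) (fun a b => by
        change |_| ≤ K
        by_cases h : a = j
        · rw [h, Matrix.updateRow_self]
          by_cases h2 : b = i
          · rw [h2, Pi.single_eq_same, abs_one]
            exact hK
          · rw [Pi.single_eq_of_ne h2, abs_zero]
            exact le_trans zero_le_one hK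
        · rw [Matrix.updateRow_ne h]
          exact hA a b)
    simpa [nsmul_eq_mul] using this
  have e1 : A.adjugate *ᵥ (A *ᵥ u) = A.det • u := by
    rw [Matrix.mulVec_mulVec, Matrix.adjugate_mul, Matrix.smul_mulVec, Matrix.one_mulVec]
  have e2 : A.det * u j = ∑ i, A.adjugate j i * (A *ᵥ u) i := by
    have := congrFun e1 j
    rw [Pi.smul_apply, smul_eq_mul] at this
    rw [← this]
    rfl
  have e3 : |A.det| * |u j| ≤ c * (c.factorial * K ^ c) * v := by
    rw [← abs_mul, e2]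
    refine (Finset.abs_sum_le_sum_abs _ _).trans ?_
    have hv0 : ∀ i : Fin c, 0 ≤ v := fun i => (abs_nonneg _).trans (hv i)
    refine (Finset.sum_le_sum (g := fun _ => (c.factorial * K ^ c) * v) fun i _ => ?_).trans ?_
    · rw [abs_mul]
      exact mul_le_mul (hadj j i) (hv i) (abs_nonneg _) (by positivity)
    · rw [Finset.sum_const, Finset.card_univ, Fintype.card_fin, nsmul_eq_mul]
      linarith [mul_assoc (c : ℝ) (c.factorial * K ^ c) v]
  rw [le_div_iff₀ hδ]
  have h0 := abs_nonneg (u j)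
  nlinarith

/-- An integer vector which is bounded. -/
theorem CH_bdd {Ω T : Type} [Fintype Ω] {d : ℕ} {p : Ω → ℝ} (hp : ∀ ω, 0 ≤ p ω)
    (h1 : ∑ ω, p ω = 1) (V : Ω → Fin d → ℤ) (D : Ω → T) {L : ℝ}
    (hV : ∀ ω ω', 0 < p ω → 0 < p ω' → D ω = D ω' → ∀ i, |((V ω i - V ω' i : ℤ) : ℝ)| ≤ L) :
    CH p V D ≤ d * Real.log (2 * L + 1) := by
  have := CH_le_vec hp h1 V D (fun _ => L) hV
  rwa [Ex_const h1] at this

/-- **Linear images.**  If `V` is the image of `M` under a matrix which is a function of the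
condition and has a maximal minor at least `2 ^ (-b)`, then `V` keeps the entropy of `M` up to the
entropy of `r - c` coordinates. -/
theorem lin_full {Ω T : Type} [Fintype Ω] {c r : ℕ} {p : Ω → ℝ} (hp : ∀ ω, 0 ≤ p ω)
    (h1 : ∑ ω, p ω = 1) (D : Ω → T) (M : Ω → Fin r → ℝ) (V : Ω → Fin c → ℝ)
    (A : T → Matrix (Fin c) (Fin r) ℝ) (K b : ℝ) (X : ℕ) (hK : 1 ≤ K) (hb : 0 ≤ b)
    (hM : ∀ ω, 0 < p ω → ∀ j, |M ω j| ≤ K)
    (hA : ∀ ω, 0 < p ω → ∀ i j, |A (D ω) i j| ≤ (2 : ℝ) ^ b)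
    (hdet : ∀ ω, 0 < p ω → ∃ σ : Fin c → Fin r, (2 : ℝ) ^ (-b) ≤ |((A (D ω)).submatrix id σ).det|)
    (hV : ∀ ω ω', 0 < p ω → 0 < p ω' → D ω = D ω' → ∀ i,
      |(2 : ℝ) ^ X * (V ω i - V ω' i - (A (D ω) *ᵥ (fun j => M ω j - M ω' j)) i)| ≤ (2 : ℝ) ^ b) :
    CH p (fun ω => dv X (M ω)) D ≤ CH p (fun ω => dv X (V ω)) D +
      (r - c : ℝ) * Real.log (2 * (2 ^ X * (2 * K) + 1) + 1) +
      c * Real.log (2 * (c * (c.factorial * ((2 : ℝ) ^ b) ^ c) * (((r : ℝ) + 2) * 2 ^ b) /
        (2 : ℝ) ^ (-b) + 1) + 1) := by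
  classical
  -- the choice of the minor
  have hex : ∀ d : T, ∃ σ : Fin c → Fin r, ∀ ω, 0 < p ω → D ω = d →
      (2 : ℝ) ^ (-b) ≤ |((A d).submatrix id σ).det| := by
    intro d
    by_cases h : ∃ ω, 0 < p ω ∧ D ω = d
    · obtain ⟨ω, hω, rfl⟩ := h
      obtain ⟨σ, hσ⟩ := hdet ω hω
      exact ⟨σ, fun _ _ _ => hσ⟩
    · push Not at h
      by_cases hr : Nonempty (Fin c → Fin r)
      · exact ⟨hr.some, fun ω hω e => absurd e (h ω hω)⟩
      · obtain ⟨ω, hω⟩ : ∃ ω, 0 < p ω := by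
          by_contra hcon
          push Not at hcon
          have : ∑ ω, p ω = 0 := Finset.sum_eq_zero fun ω _ => le_antisymm (hcon ω) (hp ω)
          rw [h1] at this
          exact one_ne_zero this
        exact absurd ⟨(hdet ω hω).choose⟩ hr
  choose σ hσ using hex
  have h2b : (0 : ℝ) < (2 : ℝ) ^ (-b) := Real.rpow_pos_of_pos (by norm_num) _
  have h2b1 : (1 : ℝ) ≤ (2 : ℝ) ^ b := Real.one_le_rpow (by norm_num) hb
  -- `σ` is injective where it matters
  have hinj : ∀ ω, 0 < p ω → Function.Injective (σ (D ω)) := by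
    intro ω hω i j hij
    by_contra hne
    have h3 := hσ (D ω) ω hω rfl
    have : ((A (D ω)).submatrix id (σ (D ω))).det = 0 := by
      refine Matrix.det_zero_of_column_eq hne fun k => ?_
      rw [Matrix.submatrix_apply, Matrix.submatrix_apply, hij]
    rw [this, abs_zero] at h3
    exact absurd h3 (not_le.2 h2b)
  -- complement
  have hcard : ∀ ω, 0 < p ω → ((univ.image (σ (D ω)))ᶜ : Finset (Fin r)).card = r - c := by
    intro ω hω
    rw [Finset.card_compl, Fintype.card_fin, Finset.card_image_of_injective _ (hinj ω hω),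
      Finset.card_univ, Fintype.card_fin]
  have hcr : c ≤ r := by
    obtain ⟨ω, hω⟩ : ∃ ω, 0 < p ω := by
      by_contra hcon
      push Not at hcon
      have : ∑ ω, p ω = 0 := Finset.sum_eq_zero fun ω _ => le_antisymm (hcon ω) (hp ω)
      rw [h1] at this
      exact one_ne_zero this
    simpa using Fintype.card_le_of_injective _ (hinj ω hω)
  have hex2 : ∀ d : T, ∃ e : Fin (r - c) → Fin r, (∃ ω, 0 < p ω ∧ D ω = d) →
      ∀ j, j ∈ univ.image (σ d) ∨ ∃ k, e k = j := by
    intro d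
    by_cases h : ∃ ω, 0 < p ω ∧ D ω = d
    · obtain ⟨ω, hω, rfl⟩ := h
      let f := ((univ.image (σ (D ω)))ᶜ : Finset (Fin r)).equivFinOfCardEq (hcard ω hω)
      refine ⟨fun k => (f.symm k : Fin r), fun _ j => ?_⟩
      by_cases hj : j ∈ univ.image (σ (D ω))
      · exact Or.inl hj
      · refine Or.inr ⟨f ⟨j, Finset.mem_compl.2 hj⟩, ?_⟩
        simp
    · rcases Nat.eq_zero_or_pos (r - c) with h0 | h0
      · exact ⟨fun k => absurd k.2 (by omega), fun h' => absurd h' h⟩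
      · exact ⟨fun _ => ⟨0, by omega⟩, fun h' => absurd h' h⟩
  choose e he using hex2
  -- split
  set Mo : Ω → Fin (r - c) → ℤ := fun ω k => ⌊(2 : ℝ) ^ X * M ω (e (D ω) k)⌋ with hMo
  set Ms : Ω → Fin c → ℤ := fun ω i => ⌊(2 : ℝ) ^ X * M ω (σ (D ω) i)⌋ with hMs
  have s1 : CH p (fun ω => dv X (M ω)) D ≤ CH p (fun ω => dv X (V ω)) D +
      CH p (fun ω => dv X (M ω)) (fun ω => (dv X (V ω), D ω)) := CH_le_add hp _ _ _
  have s2 : CH p (fun ω => dv X (M ω)) (fun ω => (dv X (V ω), D ω)) ≤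
      CH p Mo (fun ω => (dv X (V ω), D ω)) + CH p Ms (fun ω => (Mo ω, (dv X (V ω), D ω))) := by
    have a1 := CH_chain hp Ms Mo (fun ω => (dv X (V ω), D ω))
    have a2 : CH p (fun ω => dv X (M ω)) (fun ω => (dv X (V ω), D ω)) ≤
        CH p (fun ω => (Ms ω, Mo ω)) (fun ω => (dv X (V ω), D ω)) := by
      refine CH_mono_left hp ?_
      intro ω ω' hω hω' h
      simp only [Prod.mk.injEq] at h
      obtain ⟨⟨h2, h3⟩, -, h4⟩ := h
      funext j
      rcases he (D ω) ⟨ω, hω, rfl⟩ j with hj | ⟨k, hk⟩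
      · obtain ⟨i, -, rfl⟩ := Finset.mem_image.1 hj
        have := congrFun h2 i
        simp only [hMs] at this
        rw [← h4] at this
        exact this
      · have := congrFun h3 k
        simp only [hMo] at this
        rw [← h4, hk] at this
        exact this
    linarith
  have s3 : CH p Mo (fun ω => (dv X (V ω), D ω)) ≤
      ((r - c : ℕ) : ℝ) * Real.log (2 * (2 ^ X * (2 * K) + 1) + 1) := by
    refine CH_bdd hp h1 Mo _ ?_
    intro ω ω' hω hω' _ i
    refine floor_near ?_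
    rw [← mul_sub, abs_mul, abs_of_nonneg (by positivity : (0:ℝ) ≤ 2 ^ X)]
    refine mul_le_mul_of_nonneg_left ?_ (by positivity)
    have b1 := hM ω hω (e (D ω) i)
    have b2 := hM ω' hω' (e (D ω') i)
    rw [abs_le] at b1 b2 ⊢
    constructor <;> linarith
  have s4 : CH p Ms (fun ω => (Mo ω, (dv X (V ω), D ω))) ≤
      c * Real.log (2 * (c * (c.factorial * ((2 : ℝ) ^ b) ^ c) * (((r : ℝ) + 2) * 2 ^ b) /
        (2 : ℝ) ^ (-b) + 1) + 1) := by
    refine CH_bdd hp h1 Ms _ ?_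
    intro ω ω' hω hω' h i
    simp only [Prod.mk.injEq] at h
    obtain ⟨h2, h3, h4⟩ := h
    simp only [hMs]
    refine floor_near ?_
    rw [← h4, ← mul_sub]
    -- the linear system
    set B : Matrix (Fin c) (Fin c) ℝ := (A (D ω)).submatrix id (σ (D ω)) with hB
    set u : Fin c → ℝ := fun k => (2 : ℝ) ^ X * (M ω (σ (D ω) k) - M ω' (σ (D ω) k)) with hu
    have key : ∀ k, |(B *ᵥ u) k| ≤ ((r : ℝ) + 2) * 2 ^ b := by
      intro k
      -- the sum over all the columns
      have e1 : (2 : ℝ) ^ X * (A (D ω) *ᵥ (fun j => M ω j - M ω' j)) k =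
          ∑ j, A (D ω) k j * ((2 : ℝ) ^ X * (M ω j - M ω' j)) := by
        unfold Matrix.mulVec dotProduct
        rw [Finset.mul_sum]
        exact Finset.sum_congr rfl fun j _ => by ring
      have e2 : ∑ j, A (D ω) k j * ((2 : ℝ) ^ X * (M ω j - M ω' j)) =
          (∑ j ∈ univ.image (σ (D ω)), A (D ω) k j * ((2 : ℝ) ^ X * (M ω j - M ω' j))) +
          ∑ j ∈ (univ.image (σ (D ω)))ᶜ, A (D ω) k j * ((2 : ℝ) ^ X * (M ω j - M ω' j)) :=
        (Finset.sum_add_sum_compl _ _).symm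
      have e3 : ∑ j ∈ univ.image (σ (D ω)), A (D ω) k j * ((2 : ℝ) ^ X * (M ω j - M ω' j)) =
          (B *ᵥ u) k := by
        rw [Finset.sum_image (fun a _ b _ h => hinj ω hω h)]
        rfl
      have e4 : |∑ j ∈ (univ.image (σ (D ω)))ᶜ, A (D ω) k j * ((2 : ℝ) ^ X * (M ω j - M ω' j))| ≤
          r * 2 ^ b := by
        refine (Finset.abs_sum_le_sum_abs _ _).trans ?_
        refine (Finset.sum_le_card_nsmul _ _ ((2 : ℝ) ^ b) fun j hj => ?_).trans ?_
        · rcases he (D ω) ⟨ω, hω, rfl⟩ j with hj' | ⟨l, hl⟩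
          · exact absurd hj' (Finset.mem_compl.1 hj)
          · have a1 := congrFun h2 l
            simp only [hMo] at a1
            rw [← h4, hl] at a1
            have a2 := near_floor a1
            rw [← mul_sub] at a2
            rw [abs_mul]
            calc |A (D ω) k j| * |(2 : ℝ) ^ X * (M ω j - M ω' j)| ≤ 2 ^ b * 1 :=
                  mul_le_mul (hA ω hω k j) a2 (abs_nonneg _) (by positivity)
              _ = 2 ^ b := mul_one _
        · rw [nsmul_eq_mul]
          refine mul_le_mul_of_nonneg_right ?_ (by positivity)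
          have : ((univ.image (σ (D ω)))ᶜ : Finset (Fin r)).card ≤ r := by
            simpa using Finset.card_le_univ ((univ.image (σ (D ω)))ᶜ : Finset (Fin r))
          exact_mod_cast this
      have e5 := hV ω ω' hω hω' h4 k
      have e6 := near_floor (congrFun h3 k)
      rw [mul_sub ((2 : ℝ) ^ X), e1, e2, e3] at e5
      rw [abs_le] at e4 e5 e6 ⊢
      constructor <;> nlinarith
    have hB1 : ∀ a l, |B a l| ≤ (2 : ℝ) ^ b := fun a l => hA ω hω a _
    exact cramer_bound B h2b1 hB1 h2b (hσ (D ω) ω hω rfl) u key i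
  have e0 : ((r - c : ℕ) : ℝ) = (r : ℝ) - c := by
    rw [Nat.cast_sub hcr]
  rw [e0] at s3
  linarith

end Pool.GNZ
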