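import Pool.Agent.H42.GN.Zzm
import Pool.Agent.H89.GEN.Poly

/-!
# The moment map
-/

set_option autoImplicit false

namespace Pool.GNZ

open Finset Real
open Pool.Agent.H49.Ent Pool.Agent.H32.Dense

/-- Linearly independent functions have a nonzero minor. -/
theorem exists_minor {ρ τ : Type} [Fintype ρ] [DecidableEq ρ] (M : ρ → τ → ℝ)
    (h : ∀ c : ρ → ℝ, (∀ t, ∑ k, c k * M k t = 0) → c = 0) :
    ∃ σ : ρ → τ, (Matrix.of fun k l => M k (σ l)).det ≠ 0 := by
  set s : Set (ρ → ℝ) := Set.range fun t k => M k t with hs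
  have htop : Submodule.span ℝ s = ⊤ := by
    by_contra hne
    obtain ⟨f, hf, hle⟩ := Submodule.exists_le_ker_of_lt_top _ (lt_top_iff_ne_top.2 hne)
    apply hf
    have h2 := h (fun k => f fun j => if k = j then 1 else 0) (fun t => by
      have h3 : f (fun k => M k t) = 0 := LinearMap.mem_ker.1 (hle (Submodule.subset_span ⟨t, rfl⟩))
      refine Eq.trans ?_ h3
      rw [LinearMap.pi_apply_eq_sum_univ f (fun k => M k t)]
      exact Finset.sum_congr rfl fun k _ => by rw [smul_eq_mul, mul_comm])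
    refine LinearMap.ext fun x => ?_
    rw [LinearMap.pi_apply_eq_sum_univ f x, LinearMap.zero_apply]
    exact Finset.sum_eq_zero fun k _ => by
      have := congrFun h2 k
      simp only [Pi.zero_apply] at this
      rw [this, smul_zero]
  obtain ⟨f, hf, -, hli⟩ := Submodule.exists_fun_fin_finrank_span_eq ℝ s
  have hcard : Fintype.card (Fin (Module.finrank ℝ (Submodule.span ℝ s))) = Fintype.card ρ := by
    rw [Fintype.card_fin, htop, finrank_top, Module.finrank_fintype_fun_eq_card]
  set e := Fintype.equivOfCardEq hcard with he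
  choose g hg using hf
  refine ⟨fun l => g (e.symm l), ?_⟩
  set A : Matrix ρ ρ ℝ := Matrix.of fun k l => M k (g (e.symm l)) with hA
  have hcol : A.col = fun l => f (e.symm l) := by
    funext l k
    rw [← hg (e.symm l)]
    rfl
  have : LinearIndependent ℝ A.col := by
    rw [hcol]
    exact hli.comp _ e.symm.injective
  exact ((Matrix.isUnit_iff_isUnit_det A).1
    (Matrix.linearIndependent_cols_iff_isUnit.1 this)).ne_zero

/-- The monomial as a polynomial. -/
noncomputable def mp {P : ℕ} (γ : Fin P → ℕ) : MvPolynomial (Fin P) ℝ :=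
  MvPolynomial.monomial (Finsupp.equivFunOnFinite.symm γ) 1

theorem eval_mp {P : ℕ} (γ : Fin P → ℕ) (u : Fin P → ℝ) : MvPolynomial.eval u (mp γ) = mon γ u := by
  unfold mp mon
  rw [MvPolynomial.eval_monomial, one_mul, Finsupp.prod_fintype _ _ (fun i => by rw [pow_zero])]
  rfl

theorem mp_indep {P : ℕ} {Hi : Finset (Fin P → ℕ)} (h0 : (0 : Fin P → ℕ) ∉ Hi) (c : Hi → ℝ)
    (h : ∀ (u : Fin P → ℝ) (i : Fin P),
      ∑ γ, c γ * MvPolynomial.eval u (MvPolynomial.pderiv i (mp γ.1)) = 0) : c = 0 := by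
  classical
  set G : MvPolynomial (Fin P) ℝ := ∑ γ, MvPolynomial.C (c γ) * mp γ.1 with hG
  have h1 : ∀ i, MvPolynomial.pderiv i G = 0 := by
    intro i
    refine MvPolynomial.funext fun u => ?_
    rw [hG, map_sum, map_sum, map_zero, ← h u i]
    refine Finset.sum_congr rfl fun γ _ => ?_
    rw [MvPolynomial.pderiv_C_mul, map_mul, MvPolynomial.eval_C]
  have hco : ∀ γ : Hi, MvPolynomial.coeff (Finsupp.equivFunOnFinite.symm γ.1) G = c γ := by
    intro γ
    rw [hG, MvPolynomial.coeff_sum]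
    rw [Finset.sum_eq_single γ]
    · rw [MvPolynomial.coeff_C_mul, mp, MvPolynomial.coeff_monomial, if_pos rfl, mul_one]
    · intro γ' _ hne
      rw [MvPolynomial.coeff_C_mul, mp, MvPolynomial.coeff_monomial, if_neg, mul_zero]
      intro h2
      exact hne (Subtype.ext (Finsupp.equivFunOnFinite.symm.injective h2))
    · intro h2
      exact absurd (Finset.mem_univ _) h2
  funext γ
  have hne : γ.1 ≠ 0 := fun h2 => h0 (h2 ▸ γ.2)
  obtain ⟨i, hi⟩ := Function.ne_iff.1 hne
  have hi' : γ.1 i ≠ 0 := hi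
  have h2 := MvPolynomial.coeff_pderiv (i := i) G
    (Finsupp.equivFunOnFinite.symm γ.1 - Finsupp.single i 1)
  have h3 : Finsupp.equivFunOnFinite.symm γ.1 - Finsupp.single i 1 + Finsupp.single i 1 =
      Finsupp.equivFunOnFinite.symm γ.1 := by
    refine tsub_add_cancel_of_le ?_
    intro j
    by_cases hj : j = i
    · rw [hj, Finsupp.single_eq_same]
      exact Nat.one_le_iff_ne_zero.2 hi'
    · rw [Finsupp.single_eq_of_ne hj]
      exact Nat.zero_le _
  rw [h1, MvPolynomial.coeff_zero, h3, hco] at h2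
  rcases mul_eq_zero.1 h2.symm with h4 | h4
  · exact h4
  · exfalso
    have : (0 : ℝ) ≤ ((Finsupp.equivFunOnFinite.symm γ.1 - Finsupp.single i 1 : Fin P →₀ ℕ) i : ℝ) :=
      Nat.cast_nonneg _
    linarith

/-- The points of one batch. -/
theorem batch_points {P R : ℕ} {Hi : Finset (Fin P → ℕ)} (h0 : (0 : Fin P → ℕ) ∉ Hi)
    (hR : Hi.card ≤ R) : ∃ z : Fin R → Fin P → ℝ, ∀ c : Hi → ℝ,
      (∀ j i, ∑ γ, c γ * MvPolynomial.eval (z j) (MvPolynomial.pderiv i (mp γ.1)) = 0) → c = 0 := by
  classical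
  obtain ⟨σ, hσ⟩ := exists_minor (ρ := Hi) (τ := (Fin P → ℝ) × Fin P)
    (fun γ t => MvPolynomial.eval t.1 (MvPolynomial.pderiv t.2 (mp γ.1)))
    (fun c hc => mp_indep h0 c fun u i => hc (u, i))
  have hcard : Fintype.card Hi ≤ Fintype.card (Fin R) := by
    rw [Fintype.card_coe, Fintype.card_fin]
    exact hR
  obtain ⟨ι⟩ := Function.Embedding.nonempty_of_card_le hcard
  refine ⟨fun j => if h : ∃ γ, ι γ = j then (σ h.choose).1 else 0, ?_⟩
  intro c hc
  have h1 : Matrix.vecMul c (Matrix.of fun k l => MvPolynomial.eval (σ l).1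
      (MvPolynomial.pderiv (σ l).2 (mp k.1))) = 0 := by
    funext l
    have h2 := hc (ι l) (σ l).2
    have h3 : ∃ γ, ι γ = ι l := ⟨l, rfl⟩
    have h4 : (fun j => if h : ∃ γ, ι γ = j then (σ h.choose).1 else 0) (ι l) = (σ l).1 := by
      simp only [dif_pos h3, ι.injective h3.choose_spec]
    rw [h4] at h2
    rw [Pi.zero_apply, ← h2]
    rfl
  exact Matrix.eq_zero_of_vecMul_eq_zero hσ h1

/-- The variables of the moment map. -/
noncomputable def vr (S R P : ℕ) : Fin S × Fin R × Fin P ≃ Fin (S * R * P) :=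
  Fintype.equivFinOfCardEq (by
    rw [Fintype.card_prod, Fintype.card_prod, Fintype.card_fin, Fintype.card_fin, Fintype.card_fin,
      mul_assoc])

theorem vr_inj {S R P : ℕ} (s : Fin S) (j : Fin R) :
    Function.Injective fun i : Fin P => vr S R P (s, j, i) := by
  intro i i' h
  have := (vr S R P).injective h
  simp only [Prod.mk.injEq, true_and] at this
  exact this

/-- The polynomials of the moment map. -/
noncomputable def mpol {P : ℕ} (S R : ℕ) (s : Fin S) (γ : Fin P → ℕ) :
    MvPolynomial (Fin (S * R * P)) ℝ :=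
  ∑ j : Fin R, MvPolynomial.rename (fun i => vr S R P (s, j, i)) (mp γ)

theorem eval_mpol {P : ℕ} (S R : ℕ) (s : Fin S) (γ : Fin P → ℕ) (w : Fin (S * R * P) → ℝ) :
    MvPolynomial.eval w (mpol S R s γ) = ∑ j, mon γ fun i => w (vr S R P (s, j, i)) := by
  unfold mpol
  rw [map_sum]
  refine Finset.sum_congr rfl fun j _ => ?_
  rw [MvPolynomial.eval_rename, eval_mp]
  rfl

theorem eval_pderiv_mpol {P : ℕ} (S R : ℕ) (s s' : Fin S) (γ : Fin P → ℕ) (j : Fin R) (i : Fin P)
    (w : Fin (S * R * P) → ℝ) :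
    MvPolynomial.eval w (MvPolynomial.pderiv (vr S R P (s', j, i)) (mpol S R s γ)) =
      if s = s' then
        MvPolynomial.eval (fun i => w (vr S R P (s, j, i))) (MvPolynomial.pderiv i (mp γ))
      else 0 := by
  classical
  unfold mpol
  rw [map_sum, map_sum]
  have hz : ∀ j' : Fin R, (s, j') ≠ (s', j) → MvPolynomial.pderiv (vr S R P (s', j, i))
      (MvPolynomial.rename (fun i => vr S R P (s, j', i)) (mp γ)) = 0 := by
    intro j' hne
    refine MvPolynomial.pderiv_eq_zero_of_notMem_vars fun hmem => ?_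
    obtain ⟨i', -, h2⟩ := Finset.mem_image.1 (MvPolynomial.vars_rename _ _ hmem)
    have := (vr S R P).injective h2
    simp only [Prod.mk.injEq] at this
    exact hne (by rw [this.1, this.2.1])
  by_cases hs : s = s'
  · subst hs
    rw [if_pos rfl, Finset.sum_eq_single j]
    · have h1 := MvPolynomial.pderiv_rename (vr_inj s j) i (mp γ)
      rw [h1, MvPolynomial.eval_rename]
      rfl
    · intro j' _ hne
      rw [hz j' (fun h => hne (Prod.mk.inj h).2), map_zero]
    · intro h
      exact absurd (Finset.mem_univ _) h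
  · rw [if_neg hs]
    refine Finset.sum_eq_zero fun j' _ => ?_
    rw [hz j' (fun h => hs (Prod.mk.inj h).1), map_zero]

/-- The Jacobian matrix of the moment map has a nonzero maximal minor. -/
theorem mpol_minor {P S R : ℕ} {Hi : Finset (Fin P → ℕ)} (h0 : (0 : Fin P → ℕ) ∉ Hi)
    (hR : Hi.card ≤ R) : ∃ (w : Fin (S * R * P) → ℝ) (σ : Fin S × Hi → Fin (S * R * P)),
      (Matrix.of fun (k l : Fin S × Hi) => MvPolynomial.eval w
        (MvPolynomial.pderiv (σ l) (mpol S R k.1 k.2.1))).det ≠ 0 := by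
  classical
  obtain ⟨z, hz⟩ := batch_points h0 hR
  set w : Fin (S * R * P) → ℝ := fun v => z ((vr S R P).symm v).2.1 ((vr S R P).symm v).2.2 with hw
  have hwz : ∀ (s : Fin S) (j : Fin R), (fun i => w (vr S R P (s, j, i))) = z j := by
    intro s j
    funext i
    simp only [hw, Equiv.symm_apply_apply]
  refine ⟨w, exists_minor (ρ := Fin S × Hi) (τ := Fin (S * R * P))
    (fun k v => MvPolynomial.eval w (MvPolynomial.pderiv v (mpol S R k.1 k.2.1))) ?_⟩
  intro c hc
  funext k
  obtain ⟨s, γ⟩ := k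
  have h1 : (fun γ => c (s, γ)) = 0 := by
    refine hz _ fun j i => ?_
    have h2 := hc (vr S R P (s, j, i))
    rw [Fintype.sum_prod_type, Finset.sum_eq_single s] at h2
    · rw [← h2]
      refine Finset.sum_congr rfl fun γ _ => ?_
      rw [eval_pderiv_mpol, if_pos rfl, hwz]
    · intro s' _ hne
      refine Finset.sum_eq_zero fun γ _ => ?_
      rw [eval_pderiv_mpol, if_neg hne, mul_zero]
    · intro h
      exact absurd (Finset.mem_univ _) h
  exact congrFun h1 γ

end Pool.GNZ
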