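import Mathlib

set_option autoImplicit false

namespace Pool.GNZ

open Finset Real

/-- The loss of `poly_ent` in terms of the square root. -/
theorem loss_arith {X ε C A0 a b : ℝ} (hX : 1 ≤ X) (hε : 0 ≤ ε) (hC : 0 ≤ C) (hA : 0 ≤ A0)
    {u L : ℝ} (hL : 1 / 2 ≤ L) (hL1 : L ≤ 1) (hab : 0 ≤ a + b)
    (hu1 : X * Real.sqrt (ε + 1 / X) ≤ u)
    (hu2 : u ≤ X * Real.sqrt (ε + 1 / X) + 1) :
    C * (a + b + u + A0 + 1) * L + C * (X * (ε * (X * L) + A0 + 1) / u) ≤
      (4 * C + 2 * C * (A0 + 1)) * Real.sqrt (ε + 1 / X) * (X * L) + C * (a + b + A0 + 1) := by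
  have hX0 : 0 < X := by linarith
  set t := Real.sqrt (ε + 1 / X) with ht
  have hq : 0 < ε + 1 / X := by positivity
  have ht0 : 0 < t := Real.sqrt_pos.2 hq
  have htt : t * t = ε + 1 / X := Real.mul_self_sqrt hq.le
  have h1 : 1 ≤ X * t := by
    have h2 : 1 ≤ (X * t) * (X * t) := by
      have : (X * t) * (X * t) = X * X * ε + X := by
        calc (X * t) * (X * t) = X * X * (t * t) := by ring
          _ = X * X * ε + X := by rw [htt]; field_simp
      rw [this]
      nlinarith [mul_nonneg (mul_nonneg hX0.le hX0.le) hε]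
    by_contra hcon
    push Not at hcon
    nlinarith [mul_nonneg hX0.le ht0.le]
  have hu0 : 0 < u := by linarith
  have h3 : X * (ε * (X * L) + A0 + 1) / u ≤ (A0 + 1) * (X * t) := by
    rw [div_le_iff₀ hu0]
    have h4 : ε * (X * L) + A0 + 1 ≤ (A0 + 1) * (X * (t * t)) := by
      rw [htt]
      have : X * (ε + 1 / X) = X * ε + 1 := by field_simp
      rw [this]
      have h5 : ε * (X * L) ≤ ε * X := by
        have := mul_le_mul_of_nonneg_left hL1 (mul_nonneg hε hX0.le)
        linarith [mul_assoc ε X L]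
      have h6 : 0 ≤ A0 * (X * ε) := by positivity
      linarith
    calc X * (ε * (X * L) + A0 + 1) ≤ X * ((A0 + 1) * (X * (t * t))) :=
          mul_le_mul_of_nonneg_left h4 hX0.le
      _ = (A0 + 1) * (X * t) * (X * t) := by ring
      _ ≤ (A0 + 1) * (X * t) * u := mul_le_mul_of_nonneg_left hu1 (by positivity)
  have h7 : (X * t) ≤ 2 * (t * (X * L)) := by
    have : X * t * (1 / 2) ≤ X * t * L := mul_le_mul_of_nonneg_left hL (by positivity)
    linarith [mul_comm (X * t) L]
  have h8 : C * (a + b + u + A0 + 1) * L ≤ C * (a + b + A0 + 1) + 4 * C * (t * (X * L)) := by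
    have h9 : u ≤ 2 * (X * t) := by linarith
    have h10 : C * (a + b + u + A0 + 1) * L ≤ C * (a + b + A0 + 1) * L + C * (2 * (X * t)) * L := by
      have := mul_le_mul_of_nonneg_left h9 hC
      have h11 : 0 ≤ L := by linarith
      nlinarith [mul_le_mul_of_nonneg_right this h11]
    have h12 : C * (a + b + A0 + 1) * L ≤ C * (a + b + A0 + 1) :=
      mul_le_of_le_one_right (by positivity) hL1
    have h13 : C * (2 * (X * t)) * L = 2 * (C * (t * (X * L))) := by ring
    have h14 : 0 ≤ C * (t * (X * L)) := by positivity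
    linarith
  have h15 : C * (X * (ε * (X * L) + A0 + 1) / u) ≤ C * ((A0 + 1) * (2 * (t * (X * L)))) :=
    mul_le_mul_of_nonneg_left (h3.trans (mul_le_mul_of_nonneg_left h7 (by positivity))) hC
  have h16 : (4 * C + 2 * C * (A0 + 1)) * t * (X * L) =
      4 * C * (t * (X * L)) + C * ((A0 + 1) * (2 * (t * (X * L)))) := by ring
  rw [h16]
  linarith

end Pool.GNZ
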