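import Pool.Agent.H42.GN.MomA
import Pool.Agent.H42.GN.MomL

/-!
# The moment map
-/

set_option autoImplicit false

namespace Pool.GNZ

open Finset Real
open Pool.Agent.H49.Ent Pool.Agent.H32.Dense

/-- The digits of the points. -/
noncomputable def ydig {Ω : Type} {P S R : ℕ} (X : ℕ) (u : Ω → Fin S → Fin R → Fin P → ℝ) :
    Ω → Fin (S * R * P) → ℤ := fun ω v =>
  ⌊(2 : ℝ) ^ X * u ω ((vr S R P).symm v).1 ((vr S R P).symm v).2.1 ((vr S R P).symm v).2.2⌋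

theorem ydig_vr {Ω : Type} {P S R : ℕ} (X : ℕ) (u : Ω → Fin S → Fin R → Fin P → ℝ) (ω : Ω)
    (s : Fin S) (j : Fin R) (i : Fin P) :
    ydig X u ω (vr S R P (s, j, i)) = ⌊(2 : ℝ) ^ X * u ω s j i⌋ := by
  unfold ydig
  rw [Equiv.symm_apply_apply]

theorem ydig_bd {Ω : Type} {P S R : ℕ} (X : ℕ) (u : Ω → Fin S → Fin R → Fin P → ℝ) {ω : Ω}
    (hu : ∀ s j i, |u ω s j i| ≤ 2) (v : Fin (S * R * P)) :
    |((ydig X u ω v : ℤ) : ℝ)| ≤ 2 * 2 ^ X := by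
  have h2X : (0 : ℝ) < 2 ^ X := by positivity
  have h3 := abs_le.1 (hu ((vr S R P).symm v).1 ((vr S R P).symm v).2.1
    ((vr S R P).symm v).2.2)
  rw [abs_le]
  constructor
  · have : (-(2 * 2 ^ X) : ℤ) ≤ ydig X u ω v := by
      unfold ydig
      refine Int.le_floor.2 ?_
      push_cast
      nlinarith
    exact_mod_cast this
  · refine (Int.floor_le _).trans ?_
    nlinarith

theorem ydig_full {Ω T : Type} [Fintype Ω] {P S R : ℕ} {p : Ω → ℝ} (hp : ∀ ω, 0 ≤ p ω)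
    (X : ℕ) (u : Ω → Fin S → Fin R → Fin P → ℝ) (D : Ω → T) :
    CH p (fun ω s j i => ⌊(2 : ℝ) ^ X * u ω s j i⌋) D ≤ CH p (ydig X u) D := by
  refine CH_mono_left hp ?_
  intro ω ω' _ _ h
  simp only [Prod.mk.injEq] at h
  funext s j i
  have := congrFun h.1 (vr S R P (s, j, i))
  rw [ydig_vr, ydig_vr] at this
  exact this

theorem ydig_mon {Ω : Type} {P S R : ℕ} (X : ℕ) (u : Ω → Fin S → Fin R → Fin P → ℝ) {ω : Ω}
    (hu : ∀ s j i, |u ω s j i| ≤ 2) (γ : Fin P → ℕ) (s : Fin S) :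
    |(2 : ℝ) ^ X * (MvPolynomial.eval (fun i => ((ydig X u ω i : ℤ) : ℝ) / 2 ^ X)
        (mpol S R s γ) - ∑ j, mon γ (u ω s j))| ≤ R * lipc γ := by
  have h2X : (0 : ℝ) < 2 ^ X := by positivity
  rw [eval_mpol, ← Finset.sum_sub_distrib, Finset.mul_sum]
  refine (Finset.abs_sum_le_sum_abs _ _).trans ?_
  have h5 : ∀ j ∈ (Finset.univ : Finset (Fin R)), |(2 : ℝ) ^ X *
      (mon γ (fun i => ((ydig X u ω (vr S R P (s, j, i)) : ℤ) : ℝ) / 2 ^ X) -
      mon γ (u ω s j))| ≤ lipc γ := by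
    intro j _
    have h6 := (mon_lip γ
      (y := fun i => ((ydig X u ω (vr S R P (s, j, i)) : ℤ) : ℝ) / 2 ^ X)
      (z := u ω s j) (δ := ((2 : ℝ) ^ X)⁻¹) (by positivity) (fun i => by
        rw [abs_div, abs_of_pos h2X, div_le_iff₀ h2X]
        exact ydig_bd X u hu _) (hu s j) (fun i => by
        have e0 : |((ydig X u ω (vr S R P (s, j, i)) : ℤ) : ℝ) / 2 ^ X - u ω s j i| * 2 ^ X =
            |((ydig X u ω (vr S R P (s, j, i)) : ℤ) : ℝ) - 2 ^ X * u ω s j i| := by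
          rw [← abs_of_pos h2X, ← abs_mul, abs_of_pos h2X, sub_mul, div_mul_cancel₀ _ h2X.ne',
            mul_comm (u ω s j i)]
        rw [← one_div, le_div_iff₀ h2X, e0, ydig_vr, abs_le]
        have e2 := Int.floor_le ((2 : ℝ) ^ X * u ω s j i)
        have e3 := Int.lt_floor_add_one ((2 : ℝ) ^ X * u ω s j i)
        constructor <;> linarith)).2
    rw [abs_mul, abs_of_pos h2X]
    calc (2 : ℝ) ^ X * |_| ≤ 2 ^ X * (lipc γ * ((2 : ℝ) ^ X)⁻¹) :=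
          mul_le_mul_of_nonneg_left h6 h2X.le
      _ = lipc γ := by field_simp
  refine (Finset.sum_le_sum h5).trans ?_
  rw [Finset.sum_const, Finset.card_univ, Fintype.card_fin, nsmul_eq_mul]

theorem coeff_bdd {n r : ℕ} (Pol : Fin r → MvPolynomial (Fin n) ℝ) :
    ∃ b : ℕ, ∀ q m, |MvPolynomial.coeff m (Pol q)| ≤ 2 ^ b := by
  classical
  obtain ⟨b, hb⟩ := pow_unbounded_of_one_lt
    (∑ q, ∑ m ∈ (Pol q).support, |MvPolynomial.coeff m (Pol q)|) (by norm_num : (1 : ℝ) < 2)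
  refine ⟨b, fun q m => le_trans ?_ hb.le⟩
  by_cases hm : m ∈ (Pol q).support
  · refine le_trans (Finset.single_le_sum (f := fun m => |MvPolynomial.coeff m (Pol q)|)
      (fun _ _ => abs_nonneg _) hm) ?_
    exact Finset.single_le_sum (f := fun q => ∑ m ∈ (Pol q).support,
      |MvPolynomial.coeff m (Pol q)|) (fun _ _ => Finset.sum_nonneg fun _ _ => abs_nonneg _)
      (Finset.mem_univ q)
  · rw [MvPolynomial.notMem_support_iff.1 hm, abs_zero]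
    exact Finset.sum_nonneg fun _ _ => Finset.sum_nonneg fun _ _ => abs_nonneg _

theorem pt_bdd {n : ℕ} (w : Fin n → ℝ) : ∃ A0 : ℕ, (∀ i, |w i| ≤ 2 ^ A0) ∧ 1 ≤ A0 := by
  obtain ⟨A0, hA0⟩ := pow_unbounded_of_one_lt (∑ i, |w i|) (by norm_num : (1 : ℝ) < 2)
  refine ⟨A0 + 1, fun i => ?_, Nat.succ_le_succ (Nat.zero_le _)⟩
  refine le_trans (Finset.single_le_sum (f := fun i => |w i|) (fun _ _ => abs_nonneg _)
    (Finset.mem_univ i)) (hA0.le.trans ?_)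
  exact pow_le_pow_right₀ (by norm_num) (Nat.le_succ _)

/-- All the data of the moment map. -/
theorem mpol_data {P S R : ℕ} {Hi : Finset (Fin P → ℕ)} (h0 : (0 : Fin P → ℕ) ∉ Hi)
    (hR : Hi.card ≤ R) : ∃ (e : Fin S × Hi ≃ Fin (S * Hi.card))
      (Pol : Fin (S * Hi.card) → MvPolynomial (Fin (S * R * P)) ℝ)
      (I : Fin (S * Hi.card) → Fin (S * R * P)) (w : Fin (S * R * P) → ℝ) (K a b A0 : ℕ),
      (∀ q, Pol q = mpol S R (e.symm q).1 (e.symm q).2.1) ∧ (∀ q, (Pol q).totalDegree ≤ K) ∧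
      (∀ q m, |MvPolynomial.coeff m (Pol q)| ≤ 2 ^ b) ∧
      (1 / 2 : ℝ) ^ a ≤ |MvPolynomial.eval w (Pool.POLY.jac Pol I)| ∧
      (∀ i, |w i| ≤ 2 ^ A0) ∧ 1 ≤ A0 := by
  classical
  obtain ⟨w, σ, hσ⟩ := mpol_minor (S := S) h0 hR
  have hcard : Fintype.card (Fin S × Hi) = S * Hi.card := by
    rw [Fintype.card_prod, Fintype.card_fin, Fintype.card_coe]
  obtain ⟨e⟩ : Nonempty (Fin S × Hi ≃ Fin (S * Hi.card)) :=
    ⟨Fintype.equivFinOfCardEq hcard⟩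
  obtain ⟨b, hb⟩ := coeff_bdd fun q => mpol (P := P) S R (e.symm q).1 (e.symm q).2.1
  obtain ⟨A0, hA0, hA1⟩ := pt_bdd w
  have hjac : MvPolynomial.eval w (Pool.POLY.jac
      (fun q => mpol (P := P) S R (e.symm q).1 (e.symm q).2.1) (fun q => σ (e.symm q))) ≠ 0 := by
    rw [Pool.POLY.eval_jac]
    have : (Matrix.of fun (j i : Fin (S * Hi.card)) => MvPolynomial.eval w
        (MvPolynomial.pderiv (σ (e.symm i)) (mpol (P := P) S R (e.symm j).1 (e.symm j).2.1))) =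
        (Matrix.of fun (k l : Fin S × Hi) => MvPolynomial.eval w
        (MvPolynomial.pderiv (σ l) (mpol S R k.1 k.2.1))).submatrix e.symm e.symm := by
      ext i j
      rfl
    rw [this, Matrix.det_submatrix_equiv_self]
    exact hσ
  obtain ⟨a, ha⟩ := exists_pow_lt_of_lt_one (abs_pos.2 hjac) (by norm_num : (1 / 2 : ℝ) < 1)
  exact ⟨e, fun q => mpol (P := P) S R (e.symm q).1 (e.symm q).2.1, fun q => σ (e.symm q), w,
    Finset.univ.sup fun q => (mpol (P := P) S R (e.symm q).1 (e.symm q).2.1).totalDegree, a, b, A0,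
    fun _ => rfl, fun q => Finset.le_sup (f := fun q => (mpol (P := P) S R (e.symm q).1
      (e.symm q).2.1).totalDegree) (Finset.mem_univ q), hb, ha.le, hA0, hA1⟩

/-- The rounding of the moments. -/
theorem mom_round {Ω T : Type} [Fintype Ω] {P S R r : ℕ} {Hi : Finset (Fin P → ℕ)}
    {p : Ω → ℝ} (hp : ∀ ω, 0 ≤ p ω) (h1 : ∑ ω, p ω = 1)
    (X : ℕ) (u : Ω → Fin S → Fin R → Fin P → ℝ) (hu : ∀ ω, 0 < p ω → ∀ s j i, |u ω s j i| ≤ 2)
    (D : Ω → T) (e : Fin S × Hi ≃ Fin r) (Pol : Fin r → MvPolynomial (Fin (S * R * P)) ℝ)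
    (hPol : ∀ q, Pol q = mpol S R (e.symm q).1 (e.symm q).2.1) :
    CH p (fun ω j => ⌊2 ^ X * MvPolynomial.eval (fun i => ((ydig X u ω i : ℤ) : ℝ) / 2 ^ X)
      (Pol j)⌋) D ≤ CH p (fun ω s (γ : Hi) => ⌊(2 : ℝ) ^ X * ∑ j, mon γ.1 (u ω s j)⌋) D +
      r * Real.log (2 * (2 + 2 * (R * ∑ γ ∈ Hi, lipc γ)) + 1) := by
  have hlip0 : ∀ γ : Fin P → ℕ, 0 ≤ lipc γ := fun γ => by unfold lipc; positivity
  refine (CH_le_add hp _ (fun ω s (γ : Hi) => ⌊(2 : ℝ) ^ X * ∑ j, mon γ.1 (u ω s j)⌋) _).trans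
    (add_le_add le_rfl ?_)
  refine CH_bdd hp h1 _ _ ?_
  intro ω ω' hω hω' h q
  simp only [Prod.mk.injEq] at h
  have h3 := near_floor (congrFun (congrFun h.1 (e.symm q).1) (e.symm q).2)
  have h8 : R * lipc (e.symm q).2.1 ≤ R * ∑ γ ∈ Hi, lipc γ :=
    mul_le_mul_of_nonneg_left (Finset.single_le_sum (f := fun γ => lipc γ) (fun γ _ => hlip0 γ)
      (e.symm q).2.2) (Nat.cast_nonneg _)
  have h5 := (ydig_mon X u (hu ω hω) (e.symm q).2.1 (e.symm q).1).trans h8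
  have h6 := (ydig_mon X u (hu ω' hω') (e.symm q).2.1 (e.symm q).1).trans h8
  rw [← hPol] at h5 h6
  have h7 : |(2 : ℝ) ^ X * MvPolynomial.eval (fun i => ((ydig X u ω i : ℤ) : ℝ) / 2 ^ X) (Pol q) -
      (2 : ℝ) ^ X * MvPolynomial.eval (fun i => ((ydig X u ω' i : ℤ) : ℝ) / 2 ^ X) (Pol q)| ≤
      1 + 2 * (R * ∑ γ ∈ Hi, lipc γ) := by
    rw [abs_le] at h3 h5 h6 ⊢
    constructor <;> linarith
  refine (floor_near h7).trans (le_of_eq ?_)
  ring

/-- **The moment map.** -/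
theorem polyM {P : ℕ} (S : ℕ) {R : ℕ} {Hi : Finset (Fin P → ℕ)} (h0 : (0 : Fin P → ℕ) ∉ Hi)
    (hR : Hi.card ≤ R) : ∃ A : ℝ, 0 ≤ A ∧ PolyM P Hi S R A := by
  obtain ⟨e, Pol, I, w, K, a, b, A0, hPol, hdeg, hb, ha, hA0, hA1⟩ := mpol_data (S := S) h0 hR
  obtain ⟨C, hC1, hC⟩ := Pool.POLY.poly_ent (S * R * P) (S * Hi.card) K
  have hlip0 : ∀ γ : Fin P → ℕ, 0 ≤ lipc γ := fun γ => by unfold lipc; positivity
  obtain ⟨l3, hl3⟩ : ∃ l3, l3 = Real.log (2 * (2 + 2 * (R * ∑ γ ∈ Hi, lipc γ)) + 1) := ⟨_, rfl⟩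
  have hl3' : 0 ≤ l3 := by
    rw [hl3]
    refine Real.log_nonneg ?_
    have : (0 : ℝ) ≤ R * ∑ γ ∈ Hi, lipc γ :=
      mul_nonneg (Nat.cast_nonneg _) (Finset.sum_nonneg fun γ _ => hlip0 γ)
    linarith
  have hC0 : 0 ≤ C := by linarith
  refine ⟨(4 * C + 2 * C * (A0 + 1)) + C * (a + b + A0 + 1) + (S * Hi.card : ℕ) * l3,
    by positivity, ?_⟩
  intro Ω T _ p hp h1 D u X ε hX hε hu hfull
  have hX1 : (1 : ℝ) ≤ X := by exact_mod_cast hX
  have hX0 : (0 : ℝ) < X := by linarith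
  have h2X : (0 : ℝ) < 2 ^ X := by positivity
  have hlog2 : 0 < Real.log 2 := Real.log_pos (by norm_num)
  have hlog2a : 1 / 2 ≤ Real.log 2 := by linarith [Real.log_two_gt_d9]
  have hlog2b : Real.log 2 ≤ 1 := by linarith [Real.log_two_lt_d9]
  obtain ⟨tt, htt⟩ : ∃ tt : ℝ, tt = Real.sqrt (ε + 1 / X) := ⟨_, rfl⟩
  have hq : 0 < ε + 1 / (X : ℝ) := by positivity
  have htt0 : 0 < tt := by
    rw [htt]
    exact Real.sqrt_pos.2 hq
  obtain ⟨un, hun⟩ : ∃ un : ℕ, un = ⌈(X : ℝ) * tt⌉₊ := ⟨_, rfl⟩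
  have hun1 : (X : ℝ) * tt ≤ un := by
    rw [hun]
    exact Nat.le_ceil _
  have hun2 : (un : ℝ) ≤ X * tt + 1 := by
    rw [hun]
    exact (Nat.ceil_lt_add_one (by positivity)).le
  have hun3 : 1 ≤ un := Nat.one_le_iff_ne_zero.2 (by
    intro h
    rw [h, Nat.cast_zero] at hun1
    have : 0 < (X : ℝ) * tt := by positivity
    linarith)
  have hfull' : ((S * R * P : ℕ) : ℝ) * (X * Real.log 2) - ε * (X * Real.log 2) ≤
      CH p (ydig X u) D := by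
    have h3 := ydig_full hp X u D
    have h4 : ((S * R * P : ℕ) - ε) * X * Real.log 2 =
        ((S * R * P : ℕ) : ℝ) * (X * Real.log 2) - ε * (X * Real.log 2) := by
      ring
    linarith
  have key := hC Ω T p X A0 a b un (ydig X u) D (fun _ => Pol) (fun _ => I)
    (ε * (X * Real.log 2))
    ⟨hp, h1⟩ hun3 (by positivity) (fun ω hω i => (ydig_bd X u (hu ω hω) i).trans (by
      refine mul_le_mul_of_nonneg_right ?_ h2X.le
      calc (2 : ℝ) = 2 ^ 1 := (pow_one _).symm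
        _ ≤ 2 ^ A0 := pow_le_pow_right₀ (by norm_num) hA1)) (fun _ => hdeg) (fun _ => hb)
    (fun ω hω => ⟨w, hA0, ha⟩) hfull'
  rw [htt] at hun1 hun2
  have hla := loss_arith (X := X) (ε := ε) (C := C) (A0 := A0) (a := a) (b := b) (u := un)
    (L := Real.log 2) hX1 hε hC0 (Nat.cast_nonneg _) hlog2a hlog2b (by positivity) hun1 hun2
  have hround := mom_round hp h1 X u hu D e Pol hPol
  rw [← hl3] at hround
  rw [← htt] at hla ⊢
  have hn1 : 0 ≤ tt * (X * Real.log 2) := by positivity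
  have hn2 : 0 ≤ C * (a + b + A0 + 1) := by positivity
  have hn3 : 0 ≤ ((S * Hi.card : ℕ) : ℝ) * l3 := by positivity
  have hn4 : 0 ≤ (C * (a + b + A0 + 1) + (S * Hi.card : ℕ) * l3) * (tt * (X * Real.log 2)) := by
    positivity
  have hn5 : 0 ≤ 4 * C + 2 * C * (A0 + 1) := by positivity
  have h8 : ((S * Hi.card : ℕ) - ((4 * C + 2 * C * (A0 + 1)) + C * (a + b + A0 + 1) +
      (S * Hi.card : ℕ) * l3) *
      tt) * X * Real.log 2 = (S * Hi.card : ℕ) * (X * Real.log 2) -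
      (4 * C + 2 * C * (A0 + 1)) * tt *
      (X * Real.log 2) - (C * (a + b + A0 + 1) + (S * Hi.card : ℕ) * l3) *
      (tt * (X * Real.log 2)) := by
    ring
  rw [h8]
  linarith

end Pool.GNZ
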