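import Pool.Agent.H42.GN.Lin

/-!
# The zigzag: fullness of the height
-/

set_option autoImplicit false

namespace Pool.GNZ

open Finset Real Matrix
open Pool.Agent.H49.Ent Pool.Agent.H32.Dense

/-! ### Monomials -/

/-- A monomial. -/
def mon {P : ℕ} (e : Fin P → ℕ) (y : Fin P → ℝ) : ℝ := ∏ j, y j ^ e j

theorem prod_lip {ι : Type} (s : Finset ι) (a b : ι → ℝ) {M δ : ℝ} (hM : 1 ≤ M) (hδ : 0 ≤ δ)
    (ha : ∀ j ∈ s, |a j| ≤ M) (hb : ∀ j ∈ s, |b j| ≤ M) (hab : ∀ j ∈ s, |a j - b j| ≤ δ) :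
    |∏ j ∈ s, a j| ≤ M ^ s.card ∧ |∏ j ∈ s, a j - ∏ j ∈ s, b j| ≤ s.card * M ^ s.card * δ := by
  classical
  induction s using Finset.induction_on with
  | empty => simp
  | insert i s hi ih =>
    obtain ⟨h1, h2⟩ := ih (fun j hj => ha j (Finset.mem_insert_of_mem hj))
      (fun j hj => hb j (Finset.mem_insert_of_mem hj))
      (fun j hj => hab j (Finset.mem_insert_of_mem hj))
    have a1 := ha i (Finset.mem_insert_self i s)
    have b1 := hb i (Finset.mem_insert_self i s)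
    have c1 := hab i (Finset.mem_insert_self i s)
    rw [Finset.prod_insert hi, Finset.prod_insert hi, Finset.card_insert_of_notMem hi]
    have hM0 : (0 : ℝ) ≤ M := le_trans zero_le_one hM
    constructor
    · rw [abs_mul, pow_succ, mul_comm]
      exact mul_le_mul h1 a1 (abs_nonneg _) (by positivity)
    · have e : a i * ∏ j ∈ s, a j - b i * ∏ j ∈ s, b j =
          (a i - b i) * ∏ j ∈ s, a j + b i * (∏ j ∈ s, a j - ∏ j ∈ s, b j) := by ring
      rw [e]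
      refine (abs_add_le _ _).trans ?_
      rw [abs_mul, abs_mul]
      have d1 : |a i - b i| * |∏ j ∈ s, a j| ≤ δ * M ^ s.card :=
        mul_le_mul c1 h1 (abs_nonneg _) hδ
      have d2 : |b i| * |∏ j ∈ s, a j - ∏ j ∈ s, b j| ≤ M * (s.card * M ^ s.card * δ) :=
        mul_le_mul b1 h2 (abs_nonneg _) hM0
      have d3 : δ * M ^ s.card ≤ δ * M ^ (s.card + 1) :=
        mul_le_mul_of_nonneg_left (pow_le_pow_right₀ hM (Nat.le_succ _)) hδ
      push_cast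
      calc _ ≤ δ * M ^ (s.card + 1) + M * (s.card * M ^ s.card * δ) := by linarith
        _ = (s.card + 1) * M ^ (s.card + 1) * δ := by ring

theorem pow_lip {x y M δ : ℝ} (e : ℕ) (hM : 1 ≤ M) (hδ : 0 ≤ δ) (hx : |x| ≤ M) (hy : |y| ≤ M)
    (hxy : |x - y| ≤ δ) : |x ^ e| ≤ M ^ e ∧ |x ^ e - y ^ e| ≤ e * M ^ e * δ := by
  have := prod_lip (range e) (fun _ => x) (fun _ => y) hM hδ (fun _ _ => hx) (fun _ _ => hy)
    (fun _ _ => hxy)
  simpa [Finset.prod_const] using this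

/-- The Lipschitz constant of a monomial on the box of side `2`. -/
noncomputable def lipc {P : ℕ} (e : Fin P → ℕ) : ℝ :=
  P * ((2 : ℝ) ^ (∑ j, e j)) ^ P * ((∑ j, e j : ℕ) * (2 : ℝ) ^ (∑ j, e j))

/-- The bound of a monomial on the box of side `2`. -/
noncomputable def bndc {P : ℕ} (e : Fin P → ℕ) : ℝ := ((2 : ℝ) ^ (∑ j, e j)) ^ P

theorem mon_lip {P : ℕ} (e : Fin P → ℕ) {y z : Fin P → ℝ} {δ : ℝ} (hδ : 0 ≤ δ)
    (hy : ∀ j, |y j| ≤ 2) (hz : ∀ j, |z j| ≤ 2) (h : ∀ j, |y j - z j| ≤ δ) :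
    |mon e y| ≤ bndc e ∧ |mon e y - mon e z| ≤ lipc e * δ := by
  have hle : ∀ j, e j ≤ ∑ j, e j := fun j => Finset.single_le_sum (fun _ _ => Nat.zero_le _)
    (Finset.mem_univ j)
  have h2 : ∀ j, (2 : ℝ) ^ e j ≤ 2 ^ (∑ j, e j) := fun j =>
    pow_le_pow_right₀ (by norm_num) (hle j)
  have hpow : ∀ {w : Fin P → ℝ}, (∀ j, |w j| ≤ 2) → ∀ j, |w j ^ e j| ≤ 2 ^ (∑ j, e j) := by
    intro w hw j
    rw [abs_pow]
    exact (pow_le_pow_left₀ (abs_nonneg _) (hw j) _).trans (h2 j)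
  have key := prod_lip univ (fun j => y j ^ e j) (fun j => z j ^ e j)
    (M := 2 ^ (∑ j, e j)) (δ := ((∑ j, e j : ℕ) * (2 : ℝ) ^ (∑ j, e j)) * δ)
    (one_le_pow₀ (by norm_num)) (by positivity)
    (fun j _ => hpow hy j) (fun j _ => hpow hz j) (fun j _ => by
      refine (pow_lip (e j) (by norm_num : (1:ℝ) ≤ 2) hδ (hy j) (hz j) (h j)).2.trans ?_
      refine mul_le_mul_of_nonneg_right ?_ hδ
      refine mul_le_mul ?_ (h2 j) (by positivity) (by positivity)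
      exact_mod_cast hle j)
  rw [Finset.card_univ, Fintype.card_fin] at key
  refine ⟨key.1, key.2.trans (le_of_eq ?_)⟩
  unfold lipc
  ring

/-- The moment map in entropy form: the vector of the sums of the monomials of `Hi` over `R`
points, for `S` batches of points, is full if the points are. -/
def PolyM (P : ℕ) (Hi : Finset (Fin P → ℕ)) (S R : ℕ) (A : ℝ) : Prop :=
  ∀ (Ω T : Type) [Fintype Ω] (p : Ω → ℝ), (∀ ω, 0 ≤ p ω) → ∑ ω, p ω = 1 →
    ∀ (D : Ω → T) (u : Ω → Fin S → Fin R → Fin P → ℝ) (X : ℕ) (ε : ℝ), 1 ≤ X → 0 ≤ ε →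
      (∀ ω, 0 < p ω → ∀ s j i, |u ω s j i| ≤ 2) →
      ((S * R * P : ℕ) - ε) * X * Real.log 2 ≤
        CH p (fun ω s j i => ⌊(2 : ℝ) ^ X * u ω s j i⌋) D →
      ((S * Hi.card : ℕ) - A * Real.sqrt (ε + 1 / X)) * X * Real.log 2 - A ≤
        CH p (fun ω s (γ : Hi) => ⌊(2 : ℝ) ^ X * ∑ j, mon γ.1 (u ω s j)⌋) D


/-! ### Auxiliary lemmas -/

theorem le_of_minor {c r : ℕ} (A : Matrix (Fin c) (Fin r) ℝ) (σ : Fin c → Fin r)
    (h : (A.submatrix id σ).det ≠ 0) : c ≤ r := by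
  have : Function.Injective σ := by
    intro i j hij
    by_contra hne
    exact h (Matrix.det_zero_of_column_eq hne fun k => by
      rw [Matrix.submatrix_apply, Matrix.submatrix_apply, hij])
  simpa using Fintype.card_le_of_injective _ this

/-- A bounded integer vector with an arbitrary finite index set. -/
theorem CH_bddI {Ω T ι : Type} [Fintype Ω] [Fintype ι] {p : Ω → ℝ} (hp : ∀ ω, 0 ≤ p ω)
    (h1 : ∑ ω, p ω = 1) (V : Ω → ι → ℤ) (D : Ω → T) {L : ℝ}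
    (hV : ∀ ω ω', 0 < p ω → 0 < p ω' → D ω = D ω' → ∀ i, |((V ω i - V ω' i : ℤ) : ℝ)| ≤ L) :
    CH p V D ≤ Fintype.card ι * Real.log (2 * L + 1) := by
  set e := Fintype.equivFin ι
  have a1 : CH p V D ≤ CH p (fun ω k => V ω (e.symm k)) D :=
    CH_mono_left hp fun ω ω' _ _ h => by
      simp only [Prod.mk.injEq] at h
      funext i
      have := congrFun h.1 (e i)
      simpa using this
  exact a1.trans (CH_bdd hp h1 _ D fun ω ω' h2 h3 h4 i => hV ω ω' h2 h3 h4 _)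

theorem sum_range_pairs (f : ℕ → ℝ) (m : ℕ) :
    ∑ k ∈ range (2 * m), f k = ∑ j ∈ range m, (f (2 * j) + f (2 * j + 1)) := by
  induction m with
  | zero => simp
  | succ m ih =>
    rw [Finset.sum_range_succ _ m, ← ih, show 2 * (m + 1) = 2 * m + 1 + 1 by ring,
      Finset.sum_range_succ, Finset.sum_range_succ]
    ring

theorem sum_range_batches (f : ℕ → ℝ) (S R : ℕ) :
    ∑ j ∈ range (S * R), f j = ∑ s : Fin S, ∑ i : Fin R, f (i + R * s) := by
  rw [Finset.sum_range, ← Equiv.sum_comp finProdFinEquiv, Fintype.sum_prod_type]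
  refine Finset.sum_congr rfl fun s _ => Finset.sum_congr rfl fun i _ => ?_
  rw [finProdFinEquiv_apply_val]

/-- The sample used in the `k`-th step. -/
def aix (S R k : ℕ) : Fin (S + 1) :=
  if h : k % 2 = 1 ∧ k / 2 / R < S then Fin.succ ⟨k / 2 / R, h.2⟩ else 0

theorem aix_even (S R j : ℕ) : aix S R (2 * j) = 0 := by
  unfold aix
  rw [dif_neg]
  rintro ⟨h, -⟩
  omega

theorem aix_odd {S R : ℕ} (s : Fin S) (i : Fin R) :
    aix S R (2 * (i + R * s) + 1) = s.succ := by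
  have hR : 0 < R := lt_of_le_of_lt (Nat.zero_le _) i.2
  have h1 : (2 * ((i : ℕ) + R * s) + 1) % 2 = 1 := by omega
  have h2 : (2 * ((i : ℕ) + R * s) + 1) / 2 / R = s := by
    have : (2 * ((i : ℕ) + R * s) + 1) / 2 = i + R * s := by omega
    rw [this, Nat.add_mul_div_left _ _ hR, Nat.div_eq_of_lt i.2, zero_add]
  unfold aix
  have h3 : (2 * ((i : ℕ) + R * s) + 1) % 2 = 1 ∧ (2 * ((i : ℕ) + R * s) + 1) / 2 / R < S :=
    ⟨h1, by rw [h2]; exact s.2⟩
  rw [dif_pos h3]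
  congr 1
  exact Fin.ext h2

theorem mon_zero {P : ℕ} {e : Fin P → ℕ} (he : e ≠ 0) {y : Fin P → ℝ} (hy : ∀ j, y j = 0) :
    mon e y = 0 := by
  obtain ⟨j, hj⟩ := Function.ne_iff.1 he
  exact Finset.prod_eq_zero (Finset.mem_univ j) (by rw [hy j]; exact zero_pow hj)

/-- The telescope of the leaves. -/
theorem tele_leaf {P c : ℕ} (Hi : Finset (Fin P → ℕ)) (n X : ℕ)
    (Bk : ℕ → (Fin P → ℕ) → Fin c → ℝ) (ys : ℕ → Fin P → ℝ) (Ls : ℕ → Fin c → ℝ)
    (z : Fin P → ℝ) {e : ℝ}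
    (h : ∀ k < n, ∀ i, |(2 : ℝ) ^ X * (Ls (k + 1) i - Ls k i - ∑ γ ∈ Hi, Bk k γ i *
      (mon γ (fun j => z j - ys (k + 1) j) - mon γ (fun j => z j - ys k j)))| ≤ e) (i : Fin c) :
    |(2 : ℝ) ^ X * (Ls n i - Ls 0 i - ∑ k ∈ range n, ∑ γ ∈ Hi, Bk k γ i *
      (mon γ (fun j => z j - ys (k + 1) j) - mon γ (fun j => z j - ys k j)))| ≤ n * e := by
  have e1 : (2 : ℝ) ^ X * (Ls n i - Ls 0 i - ∑ k ∈ range n, ∑ γ ∈ Hi, Bk k γ i *
      (mon γ (fun j => z j - ys (k + 1) j) - mon γ (fun j => z j - ys k j))) =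
      ∑ k ∈ range n, (2 : ℝ) ^ X * (Ls (k + 1) i - Ls k i - ∑ γ ∈ Hi, Bk k γ i *
      (mon γ (fun j => z j - ys (k + 1) j) - mon γ (fun j => z j - ys k j))) := by
    rw [← Finset.mul_sum, Finset.sum_sub_distrib (f := fun k => Ls (k + 1) i - Ls k i),
      Finset.sum_range_sub (fun k => Ls k i)]
  rw [e1]
  refine (Finset.abs_sum_le_sum_abs _ _).trans ?_
  refine (Finset.sum_le_sum fun k hk => h k (Finset.mem_range.1 hk) i).trans ?_
  rw [Finset.sum_const, Finset.card_range, nsmul_eq_mul]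

/-- The regrouping of the telescope: the odd points carry the moments. -/
theorem tele_group {P : ℕ} (Hi : Finset (Fin P → ℕ)) (S R : ℕ)
    (B : Fin (S + 1) → (Fin P → ℕ) → ℝ) (m : ℕ → (Fin P → ℕ) → ℝ) :
    ∑ k ∈ range (2 * (S * R)), ∑ γ ∈ Hi, B (aix S R k) γ * (m (k + 1) γ - m k γ) =
      (∑ s : Fin S, ∑ γ ∈ Hi, (B 0 γ - B s.succ γ) * ∑ i : Fin R, m (2 * (i + R * s) + 1) γ) +
      ∑ j ∈ range (S * R), ∑ γ ∈ Hi,
        (B (aix S R (2 * j + 1)) γ * m (2 * j + 2) γ - B 0 γ * m (2 * j) γ) := by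
  rw [sum_range_pairs]
  have e1 : ∀ j ∈ range (S * R), (∑ γ ∈ Hi, B (aix S R (2 * j)) γ * (m (2 * j + 1) γ - m (2 * j) γ) +
      ∑ γ ∈ Hi, B (aix S R (2 * j + 1)) γ * (m (2 * j + 1 + 1) γ - m (2 * j + 1) γ)) =
      (∑ γ ∈ Hi, (B 0 γ - B (aix S R (2 * j + 1)) γ) * m (2 * j + 1) γ) +
      ∑ γ ∈ Hi, (B (aix S R (2 * j + 1)) γ * m (2 * j + 2) γ - B 0 γ * m (2 * j) γ) := by
    intro j _
    rw [aix_even, ← Finset.sum_add_distrib, ← Finset.sum_add_distrib]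
    exact Finset.sum_congr rfl fun γ _ => by ring
  rw [Finset.sum_congr rfl e1, Finset.sum_add_distrib]
  congr 1
  rw [sum_range_batches]
  refine Finset.sum_congr rfl fun s _ => ?_
  rw [Finset.sum_comm]
  refine Finset.sum_congr rfl fun γ _ => ?_
  rw [Finset.mul_sum]
  refine Finset.sum_congr rfl fun i _ => ?_
  rw [aix_odd]

/-- The supports of two variables with the same law. -/
theorem supp_of_law {Ω₁ Ω₂ S : Type} [Fintype Ω₁] [Fintype Ω₂] {p : Ω₁ → ℝ} {q : Ω₂ → ℝ}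
    (hp : ∀ ω, 0 ≤ p ω) (hq : ∀ ω, 0 ≤ q ω)
    {X : Ω₁ → S} {Y : Ω₂ → S} (h : ∀ s, law p X s = law q Y s) {ω : Ω₁} (hω : 0 < p ω) :
    ∃ ω₀, 0 < q ω₀ ∧ Y ω₀ = X ω := by
  classical
  have h2 : 0 < law q Y (X ω) := by
    rw [← h]
    exact law_pos hp X hω
  by_contra hcon
  push Not at hcon
  have : law q Y (X ω) = 0 := by
    unfold law
    refine Finset.sum_eq_zero fun ω _ => ?_
    split_ifs with h
    · exact le_antisymm (not_lt.mp fun h' => hcon ω h' h) (hq ω)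
    · rfl
  rw [this] at h2
  exact lt_irrefl _ h2

/-- The even part of the telescope is a Lipschitz function of the even points. -/
theorem even_lip {P : ℕ} (Hi : Finset (Fin P → ℕ)) (S R : ℕ)
    (B : Fin (S + 1) → (Fin P → ℕ) → ℝ) (y y' : ℕ → Fin P → ℝ) (z z' : Fin P → ℝ) {X : ℕ} {K : ℝ}
    (hB : ∀ s, ∀ γ ∈ Hi, |B s γ| ≤ K)
    (hy : ∀ j ≤ S * R, ∀ l, |y (2 * j) l| ≤ 1) (hy' : ∀ j ≤ S * R, ∀ l, |y' (2 * j) l| ≤ 1)
    (hz : ∀ l, |z l| ≤ 1) (hz' : ∀ l, |z' l| ≤ 1)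
    (hyy : ∀ j ≤ S * R, ∀ l, |(2 : ℝ) ^ X * y (2 * j) l - (2 : ℝ) ^ X * y' (2 * j) l| ≤ 1)
    (hzz : ∀ l, |(2 : ℝ) ^ X * z l - (2 : ℝ) ^ X * z' l| ≤ 1) :
    |(2 : ℝ) ^ X * ((∑ j ∈ range (S * R), ∑ γ ∈ Hi,
        (B (aix S R (2 * j + 1)) γ * mon γ (fun l => z l - y (2 * j + 2) l) -
          B 0 γ * mon γ (fun l => z l - y (2 * j) l))) -
      (∑ j ∈ range (S * R), ∑ γ ∈ Hi,
        (B (aix S R (2 * j + 1)) γ * mon γ (fun l => z' l - y' (2 * j + 2) l) -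
          B 0 γ * mon γ (fun l => z' l - y' (2 * j) l))))| ≤
      (S * R : ℕ) * (∑ γ ∈ Hi, 4 * K * lipc γ) := by
  rw [← Finset.sum_sub_distrib, Finset.mul_sum]
  have h2 : (0 : ℝ) < 2 ^ X := by positivity
  -- one monomial
  have key : ∀ j ≤ S * R, ∀ γ : Fin P → ℕ, |(2 : ℝ) ^ X * (mon γ (fun l => z l - y (2 * j) l) -
      mon γ (fun l => z' l - y' (2 * j) l))| ≤ 2 * lipc γ := by
    intro j hj γ
    have a := (mon_lip γ (y := fun l => z l - y (2 * j) l) (z := fun l => z' l - y' (2 * j) l)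
      (δ := 2 * ((2 : ℝ) ^ X)⁻¹) (by positivity) (fun l => by
        have b1 := hz l
        have b2 := hy j hj l
        rw [abs_le] at b1 b2 ⊢
        constructor <;> linarith) (fun l => by
        have b1 := hz' l
        have b2 := hy' j hj l
        rw [abs_le] at b1 b2 ⊢
        constructor <;> linarith) (fun l => by
        have b1 := hzz l
        have b2 := hyy j hj l
        rw [← div_eq_mul_inv, le_div_iff₀ h2, ← abs_of_pos h2, ← abs_mul]
        rw [abs_le] at b1 b2 ⊢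
        constructor <;> nlinarith)).2
    rw [abs_mul, abs_of_pos h2]
    calc (2 : ℝ) ^ X * |_| ≤ 2 ^ X * (lipc γ * (2 * ((2 : ℝ) ^ X)⁻¹)) :=
          mul_le_mul_of_nonneg_left a h2.le
      _ = 2 * lipc γ := by field_simp
  refine (Finset.abs_sum_le_sum_abs _ _).trans ?_
  refine (Finset.sum_le_sum (g := fun _ => ∑ γ ∈ Hi, 4 * K * lipc γ) fun j hj => ?_).trans ?_
  · have hj' := Finset.mem_range.1 hj
    rw [← Finset.sum_sub_distrib, Finset.mul_sum]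
    refine (Finset.abs_sum_le_sum_abs _ _).trans ?_
    refine Finset.sum_le_sum fun γ hγ => ?_
    have k1 := key (j + 1) hj' γ
    have k2 := key j hj'.le γ
    rw [show 2 * (j + 1) = 2 * j + 2 by ring] at k1
    have b1 := hB (aix S R (2 * j + 1)) γ hγ
    have b2 := hB 0 γ hγ
    have e1 : (2 : ℝ) ^ X * (B (aix S R (2 * j + 1)) γ * mon γ (fun l => z l - y (2 * j + 2) l) -
          B 0 γ * mon γ (fun l => z l - y (2 * j) l) -
        (B (aix S R (2 * j + 1)) γ * mon γ (fun l => z' l - y' (2 * j + 2) l) -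
          B 0 γ * mon γ (fun l => z' l - y' (2 * j) l))) =
        B (aix S R (2 * j + 1)) γ * ((2 : ℝ) ^ X * (mon γ (fun l => z l - y (2 * j + 2) l) -
          mon γ (fun l => z' l - y' (2 * j + 2) l))) -
        B 0 γ * ((2 : ℝ) ^ X * (mon γ (fun l => z l - y (2 * j) l) -
          mon γ (fun l => z' l - y' (2 * j) l))) := by ring
    rw [e1]
    refine (abs_sub _ _).trans ?_
    rw [abs_mul (B (aix S R (2 * j + 1)) γ), abs_mul (B 0 γ)]
    have hK : 0 ≤ K := (abs_nonneg _).trans b2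
    have c1 := mul_le_mul b1 k1 (abs_nonneg _) hK
    have c2 := mul_le_mul b2 k2 (abs_nonneg _) hK
    calc _ ≤ K * (2 * lipc γ) + K * (2 * lipc γ) := add_le_add c1 c2
      _ = 4 * K * lipc γ := by ring
  · rw [Finset.sum_const, Finset.card_range, nsmul_eq_mul]

end Pool.GNZ
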