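import Pool.Agent.H42.GN.Zzh

/-!
# The zigzag: the height is full given the position
-/

set_option autoImplicit false

namespace Pool.GNZ

open Finset Real Matrix
open Pool.Agent.H49.Ent Pool.Agent.H32.Dense

theorem floor_dist {x y : ℝ} (h : ⌊x⌋ = ⌊y⌋) : |x - y| ≤ 1 := near_floor h

/-- Step 1: the odd points are full given the even ones. -/
theorem odd_full {Ω' T : Type} [Fintype Ω'] {p' : Ω' → ℝ} (hp' : ∀ ω, 0 ≤ p' ω)
    (h1' : ∑ ω, p' ω = 1) {P m X : ℕ} (Y : ℕ → Ω' → Fin P → ℝ) (D : Ω' → T)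
    (hY : ∀ k ≤ 2 * m, ∀ ω, 0 < p' ω → ∀ i, |Y k ω i| ≤ 1) {F : ℝ}
    (hF : F ≤ CH p' (fun ω (k : Fin (2 * m)) => dv X (Y (k + 1) ω)) D) :
    F - m * P * (X * Real.log 2 + Real.log 7) ≤
      CH p' (fun ω (j : Fin m) => dv X (Y (2 * j + 1) ω))
        (fun ω => ((fun j : Fin m => dv X (Y (2 * j + 2) ω)), D ω)) := by
  set od : Ω' → Fin m → Fin P → ℤ := fun ω j => dv X (Y (2 * j + 1) ω) with hod
  set ev : Ω' → Fin m → Fin P → ℤ := fun ω j => dv X (Y (2 * j + 2) ω) with hev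
  have s1 : CH p' (fun ω (k : Fin (2 * m)) => dv X (Y (k + 1) ω)) D ≤
      CH p' (fun ω => (od ω, ev ω)) D := by
    refine CH_mono_left hp' ?_
    intro ω ω' _ _ h
    simp only [Prod.mk.injEq] at h
    obtain ⟨⟨h2, h3⟩, -⟩ := h
    funext k
    have hk := k.2
    change dv X (Y (k + 1) ω) = dv X (Y (k + 1) ω')
    rcases Nat.even_or_odd' (k : ℕ) with ⟨j, hj | hj⟩
    · have := congrFun h2 ⟨j, by omega⟩
      simp only [hod] at this
      rw [hj]
      exact this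
    · have := congrFun h3 ⟨j, by omega⟩
      simp only [hev] at this
      rw [hj]
      exact this
  have s2 := CH_chain hp' od ev D
  have s3 : CH p' ev D ≤ m * P * (X * Real.log 2 + Real.log 7) := by
    have a1 : CH p' ev D ≤ CH p' (fun ω (q : Fin m × Fin P) => ev ω q.1 q.2) D :=
      CH_mono_left hp' fun ω ω' _ _ h => by
        simp only [Prod.mk.injEq] at h
        funext i j
        exact congrFun h.1 (i, j)
    have a2 : CH p' (fun ω (q : Fin m × Fin P) => ev ω q.1 q.2) D ≤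
        Fintype.card (Fin m × Fin P) * Real.log (2 * (2 ^ X * 2 + 1) + 1) := by
      refine CH_bddI hp' h1' _ D ?_
      intro ω ω' hω hω' _ q
      have hq := q.1.2
      refine floor_near ?_
      rw [← mul_sub, abs_mul, abs_of_pos (by positivity : (0:ℝ) < 2 ^ X)]
      refine mul_le_mul_of_nonneg_left ?_ (by positivity)
      have b1 := hY (2 * q.1 + 2) (by omega) ω hω q.2
      have b2 := hY (2 * q.1 + 2) (by omega) ω' hω' q.2
      rw [abs_le] at b1 b2 ⊢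
      constructor <;> linarith
    refine a1.trans (a2.trans ?_)
    rw [Fintype.card_prod, Fintype.card_fin, Fintype.card_fin, Nat.cast_mul]
    refine mul_le_mul_of_nonneg_left ?_ (by positivity)
    have e1 : (1 : ℝ) ≤ 2 ^ X := one_le_pow₀ (by norm_num)
    have e2 : (2 * (2 ^ X * 2 + 1) + 1 : ℝ) ≤ 2 ^ X * 7 := by linarith
    calc Real.log (2 * (2 ^ X * 2 + 1) + 1) ≤ Real.log (2 ^ X * 7) :=
          Real.log_le_log (by positivity) e2
      _ = X * Real.log 2 + Real.log 7 := by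
          rw [Real.log_mul (by positivity) (by norm_num), Real.log_pow]
  linarith

/-- Step 2: the differences. -/
theorem diff_full {Ω' T : Type} [Fintype Ω'] {p' : Ω' → ℝ} (hp' : ∀ ω, 0 ≤ p' ω)
    (h1' : ∑ ω, p' ω = 1) {P S R X : ℕ} (Y : ℕ → Ω' → Fin P → ℝ) (z : Ω' → Fin P → ℝ) (D : Ω' → T)
    (hz : ∀ ω ω', 0 < p' ω → 0 < p' ω' → D ω = D ω' → ∀ i,
      |(2 : ℝ) ^ X * z ω i - (2 : ℝ) ^ X * z ω' i| ≤ 1) :
    CH p' (fun ω (j : Fin (S * R)) => dv X (Y j ω)) D ≤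
      CH p' (fun ω (s : Fin S) (j : Fin R) (i : Fin P) =>
        ⌊(2 : ℝ) ^ X * (z ω i - Y (j + R * s) ω i)⌋) D + (S * R : ℕ) * P * Real.log 7 := by
  set U : Ω' → Fin S → Fin R → Fin P → ℤ := fun ω s j i =>
    ⌊(2 : ℝ) ^ X * (z ω i - Y (j + R * s) ω i)⌋ with hU
  refine (CH_le_add hp' _ U D).trans (add_le_add le_rfl ?_)
  set od : Ω' → Fin (S * R) → Fin P → ℤ := fun ω j => dv X (Y j ω) with hod
  have a1 : CH p' od (fun ω => (U ω, D ω)) ≤
      CH p' (fun ω (q : Fin (S * R) × Fin P) => od ω q.1 q.2) (fun ω => (U ω, D ω)) :=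
    CH_mono_left hp' fun ω ω' _ _ h => by
      simp only [Prod.mk.injEq] at h
      funext i j
      exact congrFun h.1 (i, j)
  refine a1.trans ?_
  have a2 : CH p' (fun ω (q : Fin (S * R) × Fin P) => od ω q.1 q.2) (fun ω => (U ω, D ω)) ≤
        Fintype.card (Fin (S * R) × Fin P) * Real.log (2 * 3 + 1) := by
    refine CH_bddI hp' h1' _ _ ?_
    intro ω ω' hω hω' h q
    simp only [Prod.mk.injEq] at h
    have e0 : ((q.1 : Fin (S * R)) : ℕ) = (finProdFinEquiv.symm q.1).2 +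
        R * (finProdFinEquiv.symm q.1).1 := by
      rw [← finProdFinEquiv_apply_val, Equiv.apply_symm_apply]
    have b1 := hz ω ω' hω hω' h.2 q.2
    have b2 := near_floor (congrFun (congrFun (congrFun h.1 (finProdFinEquiv.symm q.1).1)
      (finProdFinEquiv.symm q.1).2) q.2)
    rw [← e0] at b2
    have : |(2 : ℝ) ^ X * Y q.1 ω q.2 - (2 : ℝ) ^ X * Y q.1 ω' q.2| ≤ 2 := by
      rw [abs_le] at b1 b2 ⊢
      constructor <;> nlinarith
    have := floor_near this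
    refine this.trans (by norm_num)
  refine a2.trans (le_of_eq ?_)
  rw [Fintype.card_prod, Fintype.card_fin, Fintype.card_fin, Nat.cast_mul]
  norm_num

/-- Step 3: the height of the last copy, up to known terms, is a linear image of the moments. -/
theorem height_lin {P c S R X : ℕ} (Hi : Finset (Fin P → ℕ))
    (B : Fin (S + 1) → (Fin P → ℕ) → Fin c → ℝ) (y y' : ℕ → Fin P → ℝ)
    (L L' : ℕ → (Fin P → ℝ) → Fin c → ℝ) (N N' : Fin c → ℝ) {K : ℝ}
    (hB : ∀ s, ∀ γ ∈ Hi, ∀ i, |B s γ i| ≤ K)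
    (hy : ∀ j ≤ 2 * (S * R), ∀ l, |y j l| ≤ 1) (hy' : ∀ j ≤ 2 * (S * R), ∀ l, |y' j l| ≤ 1)
    (hyy : ∀ j ≤ S * R, ∀ l, |(2 : ℝ) ^ X * y (2 * j) l - (2 : ℝ) ^ X * y' (2 * j) l| ≤ 1)
    (hN : ∀ i, |(2 : ℝ) ^ X * (N i - L (2 * (S * R)) (y (2 * (S * R))) i)| ≤ K)
    (hN' : ∀ i, |(2 : ℝ) ^ X * (N' i - L' (2 * (S * R)) (y' (2 * (S * R))) i)| ≤ K)
    (hL : ∀ k < 2 * (S * R), ∀ z : Fin P → ℝ, (∀ l, |z l| ≤ 1) → ∀ i,
      |(2 : ℝ) ^ X * (L (k + 1) z i - L k z i - ∑ γ ∈ Hi, B (aix S R k) γ i *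
        (mon γ (fun l => z l - y (k + 1) l) - mon γ (fun l => z l - y k l)))| ≤ K)
    (hL' : ∀ k < 2 * (S * R), ∀ z : Fin P → ℝ, (∀ l, |z l| ≤ 1) → ∀ i,
      |(2 : ℝ) ^ X * (L' (k + 1) z i - L' k z i - ∑ γ ∈ Hi, B (aix S R k) γ i *
        (mon γ (fun l => z l - y' (k + 1) l) - mon γ (fun l => z l - y' k l)))| ≤ K)
    (h00 : L 0 = L' 0)
    (hLip : ∀ z z' : Fin P → ℝ, (∀ l, |z l| ≤ 1) → (∀ l, |z' l| ≤ 1) → ∀ δ, 0 ≤ δ →
      (∀ l, |z l - z' l| ≤ δ) → ∀ i, |L 0 z i - L 0 z' i| ≤ K * δ) (i : Fin c) :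
    |(2 : ℝ) ^ X * (N i - N' i - ∑ s : Fin S, ∑ γ ∈ Hi, (B 0 γ i - B s.succ γ i) *
      ((∑ j : Fin R, mon γ (fun l => y (2 * (S * R)) l - y (2 * (j + R * s) + 1) l)) -
       (∑ j : Fin R, mon γ (fun l => y' (2 * (S * R)) l - y' (2 * (j + R * s) + 1) l))))| ≤
      K * (3 + 2 * (2 * (S * R) : ℕ) + (S * R : ℕ) * ∑ γ ∈ Hi, 4 * lipc γ) := by
  set z := y (2 * (S * R)) with hz
  set z' := y' (2 * (S * R)) with hz'
  have hz1 : ∀ l, |z l| ≤ 1 := hy _ le_rfl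
  have hz1' : ∀ l, |z' l| ≤ 1 := hy' _ le_rfl
  have hzz : ∀ l, |(2 : ℝ) ^ X * z l - (2 : ℝ) ^ X * z' l| ≤ 1 := hyy _ le_rfl
  have h2 : (0 : ℝ) < 2 ^ X := by positivity
  have t1 := tele_leaf Hi (2 * (S * R)) X (fun k γ i => B (aix S R k) γ i) y (fun k => L k z) z
    (fun k hk i => hL k hk z hz1 i) i
  have t1' := tele_leaf Hi (2 * (S * R)) X (fun k γ i => B (aix S R k) γ i) y' (fun k => L' k z') z'
    (fun k hk i => hL' k hk z' hz1' i) i
  have g1 := tele_group Hi S R (fun s γ => B s γ i) (fun k γ => mon γ (fun l => z l - y k l))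
  have g1' := tele_group Hi S R (fun s γ => B s γ i) (fun k γ => mon γ (fun l => z' l - y' k l))
  rw [g1] at t1
  rw [g1'] at t1'
  have el := even_lip Hi S R (fun s γ => B s γ i) y y' z z' (X := X) (K := K)
    (fun s γ hγ => hB s γ hγ i) (fun j hj => hy _ (by omega)) (fun j hj => hy' _ (by omega))
    hz1 hz1' hyy hzz
  have l0 : |(2 : ℝ) ^ X * (L 0 z i - L' 0 z' i)| ≤ K := by
    rw [← h00]
    have := hLip z z' hz1 hz1' ((2 : ℝ) ^ X)⁻¹ (by positivity) (fun l => by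
      have b1 := hzz l
      rw [← one_div, le_div_iff₀ h2, ← abs_of_pos h2, ← abs_mul]
      rw [abs_le] at b1 ⊢
      constructor <;> nlinarith) i
    rw [abs_mul, abs_of_pos h2]
    calc (2 : ℝ) ^ X * |_| ≤ 2 ^ X * (K * ((2 : ℝ) ^ X)⁻¹) := mul_le_mul_of_nonneg_left this h2.le
      _ = K := by field_simp
  have n1 := hN i
  have n1' := hN' i
  set E := ∑ j ∈ range (S * R), ∑ γ ∈ Hi,
        (B (aix S R (2 * j + 1)) γ i * mon γ (fun l => z l - y (2 * j + 2) l) -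
          B 0 γ i * mon γ (fun l => z l - y (2 * j) l)) with hE
  set E' := ∑ j ∈ range (S * R), ∑ γ ∈ Hi,
        (B (aix S R (2 * j + 1)) γ i * mon γ (fun l => z' l - y' (2 * j + 2) l) -
          B 0 γ i * mon γ (fun l => z' l - y' (2 * j) l)) with hE'
  have e1 : ∑ s : Fin S, ∑ γ ∈ Hi, (B 0 γ i - B s.succ γ i) *
      ((∑ j : Fin R, mon γ (fun l => z l - y (2 * (j + R * s) + 1) l)) -
       (∑ j : Fin R, mon γ (fun l => z' l - y' (2 * (j + R * s) + 1) l))) =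
      (∑ s : Fin S, ∑ γ ∈ Hi, (B 0 γ i - B s.succ γ i) *
      (∑ j : Fin R, mon γ (fun l => z l - y (2 * (j + R * s) + 1) l))) -
      (∑ s : Fin S, ∑ γ ∈ Hi, (B 0 γ i - B s.succ γ i) *
      (∑ j : Fin R, mon γ (fun l => z' l - y' (2 * (j + R * s) + 1) l))) := by
    rw [← Finset.sum_sub_distrib]
    refine Finset.sum_congr rfl fun s _ => ?_
    rw [← Finset.sum_sub_distrib]
    exact Finset.sum_congr rfl fun γ _ => by ring
  rw [e1]
  have e2 : (∑ γ ∈ Hi, 4 * K * lipc γ) = K * ∑ γ ∈ Hi, 4 * lipc γ := by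
    rw [Finset.mul_sum]
    exact Finset.sum_congr rfl fun γ _ => by ring
  rw [e2] at el
  set F := ∑ s : Fin S, ∑ γ ∈ Hi, (B 0 γ i - B s.succ γ i) *
      (∑ j : Fin R, mon γ (fun l => z l - y (2 * (j + R * s) + 1) l)) with hF
  set F' := ∑ s : Fin S, ∑ γ ∈ Hi, (B 0 γ i - B s.succ γ i) *
      (∑ j : Fin R, mon γ (fun l => z' l - y' (2 * (j + R * s) + 1) l)) with hF'
  set LL := ∑ γ ∈ Hi, 4 * lipc γ with hLL
  have key : (2 : ℝ) ^ X * (N i - N' i - (F - F')) =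
      (2 : ℝ) ^ X * (N i - L (2 * (S * R)) z i) - (2 : ℝ) ^ X * (N' i - L' (2 * (S * R)) z' i) +
      ((2 : ℝ) ^ X * (L (2 * (S * R)) z i - L 0 z i - (F + E)) -
       (2 : ℝ) ^ X * (L' (2 * (S * R)) z' i - L' 0 z' i - (F' + E'))) +
      (2 : ℝ) ^ X * (L 0 z i - L' 0 z' i) + (2 : ℝ) ^ X * (E - E') := by ring
  rw [key]
  rw [abs_le] at *
  obtain ⟨a1, a2⟩ := n1
  obtain ⟨a3, a4⟩ := n1'
  obtain ⟨a5, a6⟩ := t1
  obtain ⟨a7, a8⟩ := t1'
  obtain ⟨a9, a10⟩ := l0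
  obtain ⟨a11, a12⟩ := el
  constructor <;> nlinarith

/-- The first logarithm of `lin_full`. -/
theorem log_bd1 {K : ℝ} (hK : 0 ≤ K) (X : ℕ) :
    Real.log (2 * (2 ^ X * (2 * K) + 1) + 1) ≤ X * Real.log 2 + Real.log (4 * K + 3) := by
  have e1 : (1 : ℝ) ≤ 2 ^ X := one_le_pow₀ (by norm_num)
  have e2 : (2 * (2 ^ X * (2 * K) + 1) + 1 : ℝ) ≤ 2 ^ X * (4 * K + 3) := by nlinarith
  calc Real.log (2 * (2 ^ X * (2 * K) + 1) + 1) ≤ Real.log (2 ^ X * (4 * K + 3)) :=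
        Real.log_le_log (by positivity) e2
    _ = X * Real.log 2 + Real.log (4 * K + 3) := by
        rw [Real.log_mul (by positivity) (by positivity), Real.log_pow]

/-- The second logarithm of `lin_full`. -/
theorem log_bd2 (c r : ℕ) {b : ℝ} (hb : 0 ≤ b) :
    Real.log (2 * (c * (c.factorial * ((2 : ℝ) ^ b) ^ c) * (((r : ℝ) + 2) * 2 ^ b) /
        (2 : ℝ) ^ (-b) + 1) + 1) ≤ (c + 2) * b + Real.log (2 * c * c.factorial * (r + 2) + 3) := by
  have h1 : ((2 : ℝ) ^ b) ^ c = 2 ^ (b * c) := by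
    rw [Real.rpow_mul (by norm_num), Real.rpow_natCast]
  have h2 : (1 : ℝ) ≤ (2 : ℝ) ^ ((c + 2) * b) := Real.one_le_rpow (by norm_num) (by positivity)
  have h3 : (2 * (c * (c.factorial * ((2 : ℝ) ^ b) ^ c) * (((r : ℝ) + 2) * 2 ^ b) /
        (2 : ℝ) ^ (-b) + 1) + 1) = 2 * c * c.factorial * (r + 2) * (2 : ℝ) ^ ((c + 2) * b) + 3 := by
    rw [h1, Real.rpow_neg (by norm_num), div_inv_eq_mul]
    have : (2 : ℝ) ^ ((c + 2) * b) = 2 ^ (b * c) * 2 ^ b * 2 ^ b := by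
      rw [← Real.rpow_add (by norm_num), ← Real.rpow_add (by norm_num)]
      congr 1
      ring
    rw [this]
    ring
  rw [h3]
  calc Real.log (2 * c * c.factorial * (r + 2) * (2 : ℝ) ^ ((c + 2) * b) + 3)
      ≤ Real.log ((2 : ℝ) ^ ((c + 2) * b) * (2 * c * c.factorial * (r + 2) + 3)) := by
        refine Real.log_le_log (by positivity) ?_
        nlinarith
    _ = (c + 2) * b * Real.log 2 + Real.log (2 * c * c.factorial * (r + 2) + 3) := by
        rw [Real.log_mul (by positivity) (by positivity), Real.log_rpow (by norm_num)]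
    _ ≤ _ := by
        have h4 : Real.log 2 ≤ 1 := by
          have := Real.log_two_lt_d9
          linarith
        have h5 : (0 : ℝ) ≤ (c + 2) * b := by positivity
        nlinarith

/-- **The zigzag theorem.**  The height `N` of the leaves is full given the position `y`, if the
position is full given the leaves of the samples and the differences of the tensors of the
samples have a large minor. -/
theorem zzh {P c S R : ℕ} {Hi : Finset (Fin P → ℕ)} {A : ℝ} (hA0 : 0 ≤ A)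
    (hA : PolyM P Hi S R A) : ∃ A' : ℝ, 0 ≤ A' ∧
    ∀ (Ω 𝒞 𝒢 : Type) [Fintype Ω] (p : Ω → ℝ), (∀ ω, 0 ≤ p ω) → ∑ ω, p ω = 1 →
    ∀ (C : Ω → 𝒞) (y : Ω → Fin P → ℝ) (N : Ω → Fin c → ℝ) (L : Ω → (Fin P → ℝ) → Fin c → ℝ)
      (G : Fin (S + 1) → Ω → 𝒢) (B : Fin (S + 1) → 𝒞 → (Fin P → ℕ) → Fin c → ℝ) (X : ℕ)
      (ε b : ℝ), 1 ≤ X → 0 ≤ ε → 0 ≤ b →
    (∀ ω, 0 < p ω → ∀ i, |y ω i| ≤ 1) →
    (∀ ω, 0 < p ω → ∀ i, |(2 : ℝ) ^ X * (N ω i - L ω (y ω) i)| ≤ 2 ^ b) →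
    (∀ s ω ω', 0 < p ω → 0 < p ω' → G s ω = G s ω' → C ω = C ω' →
      ∀ z : Fin P → ℝ, (∀ j, |z j| ≤ 1) → ∀ i,
      |(2 : ℝ) ^ X * (L ω z i - L ω' z i - ∑ γ ∈ Hi, B s (C ω) γ i *
        (mon γ (fun j => z j - y ω j) - mon γ (fun j => z j - y ω' j)))| ≤ 2 ^ b) →
    (∀ ω, 0 < p ω → ∀ z z' : Fin P → ℝ, (∀ j, |z j| ≤ 1) → (∀ j, |z' j| ≤ 1) → ∀ δ, 0 ≤ δ →
      (∀ j, |z j - z' j| ≤ δ) → ∀ i, |L ω z i - L ω z' i| ≤ 2 ^ b * δ) →
    (∀ ω, 0 < p ω → ∀ s, ∀ γ ∈ Hi, ∀ i, |B s (C ω) γ i| ≤ 2 ^ b) →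
    (∀ ω, 0 < p ω → ∃ σ : Fin c → Fin S × Hi, (2 : ℝ) ^ (-b) ≤
      |(Matrix.of fun i j => B 0 (C ω) (σ j).2.1 i - B (σ j).1.succ (C ω) (σ j).2.1 i).det|) →
    (∀ s, (P - ε) * X * Real.log 2 ≤
      CH p (fun ω => dv X (y ω)) (fun ω => (G s ω, C ω))) →
    (c - A' * Real.sqrt (ε + 1 / X)) * X * Real.log 2 - A' * b - A' ≤
      CH p (fun ω => dv X (N ω)) (fun ω => (dv X (y ω), C ω)) := by
  classical
  set LL : ℝ := ∑ γ ∈ Hi, 4 * lipc γ with hLL
  have hlip0 : ∀ γ : Fin P → ℕ, 0 ≤ lipc γ := fun γ => by unfold lipc; positivity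
  have hbnd0 : ∀ γ : Fin P → ℕ, 0 ≤ bndc γ := fun γ => by unfold bndc; positivity
  have hLL0 : 0 ≤ LL := Finset.sum_nonneg fun γ _ => mul_nonneg (by norm_num) (hlip0 γ)
  set KM : ℝ := 1 + R * ∑ γ ∈ Hi, bndc γ with hKM
  have hKM1 : 1 ≤ KM := by
    have : 0 ≤ R * ∑ γ ∈ Hi, bndc γ :=
      mul_nonneg (Nat.cast_nonneg _) (Finset.sum_nonneg fun γ _ => hbnd0 γ)
    linarith
  set n : ℕ := 2 * (S * R) with hn
  set r : ℕ := S * Hi.card with hr
  obtain ⟨b₀, hb₀⟩ : ∃ b₀ : ℕ, (3 + 2 * (n : ℝ) + (S * R : ℕ) * LL) < 2 ^ b₀ :=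
    pow_unbounded_of_one_lt _ (by norm_num)
  set κ : ℝ := 6 * (S * R : ℕ) * (P + 1) with hκ
  have hκ0 : 0 ≤ κ := by positivity
  set l1 : ℝ := Real.log (4 * KM + 3) with hl1
  set l2 : ℝ := Real.log (2 * c * c.factorial * (r + 2) + 3) with hl2
  have hl1' : 0 ≤ l1 := Real.log_nonneg (by linarith)
  have hl2' : 0 ≤ l2 := Real.log_nonneg (by
    have : (0 : ℝ) ≤ 2 * c * c.factorial * (r + 2) := by positivity
    linarith)
  refine ⟨A * Real.sqrt (κ + 1) + A + r * l1 + c * l2 + c * (c + 2) * (1 + b₀), by positivity, ?_⟩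
  intro Ω 𝒞 𝒢 _ p hp h1 C y N L G B X ε b hX hε hb hy hN hL hLip hB hdet hfull
  obtain ⟨Ω', _, p', W', C', hp', h1', hlaw, hc, hY⟩ := zz_chain p hp h1 (fun ω : Ω => ω) C
    (fun k _ ω => G (aix S R k) ω) (fun _ ω => dv X (y ω)) n
  have hs : ∀ k ≤ n, ∀ ω, 0 < p' ω → 0 < p (W' k ω) ∧ C (W' k ω) = C' ω := by
    intro k hk ω hω
    obtain ⟨ω₀, h2, h3⟩ := supp_of_law hp' hp (hlaw k hk) hω
    simp only [Prod.mk.injEq] at h3
    obtain ⟨h5, h4⟩ := h3
    rw [← h5]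
    exact ⟨h2, h4⟩
  have hX0 : (0 : ℝ) < X := by exact_mod_cast hX
  have hlog2 : 0 < Real.log 2 := Real.log_pos (by norm_num)
  -- the sequence of the positions
  set Yv : ℕ → Ω' → Fin P → ℝ := fun k ω => y (W' k ω) with hYv
  set D₀ : Ω' → Ω × 𝒞 := fun ω => (W' 0 ω, C' ω) with hD₀
  set D : Ω' → (Fin (S * R) → Fin P → ℤ) × Ω × 𝒞 := fun ω =>
    ((fun j : Fin (S * R) => dv X (Yv (2 * j + 2) ω)), D₀ ω) with hD
  have hYv1 : ∀ k ≤ 2 * (S * R), ∀ ω, 0 < p' ω → ∀ i, |Yv k ω i| ≤ 1 := fun k hk ω hω i =>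
    hy _ (hs k hk ω hω).1 i
  -- the even points are known
  have heven : ∀ ω ω', D ω = D ω' → ∀ j ≤ S * R, dv X (Yv (2 * j) ω) = dv X (Yv (2 * j) ω') := by
    intro ω ω' h j hj
    simp only [hD, hD₀, Prod.mk.injEq] at h
    rcases j with _ | j
    · simp only [hYv, mul_zero]
      rw [h.2.1]
    · exact congrFun h.1 ⟨j, hj⟩
  have heven' : ∀ ω ω', D ω = D ω' → ∀ j ≤ S * R, ∀ l,
      |(2 : ℝ) ^ X * Yv (2 * j) ω l - (2 : ℝ) ^ X * Yv (2 * j) ω' l| ≤ 1 := fun ω ω' h j hj l =>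
    near_floor (congrFun (heven ω ω' h j hj) l)
  -- step 1
  have f1 : (n : ℝ) * ((P - ε) * X * Real.log 2) ≤
      CH p' (fun ω (k : Fin (2 * (S * R))) => dv X (Yv (k + 1) ω)) D₀ := by
    refine le_trans ?_ hY
    have : ∑ k ∈ range n, (P - ε) * X * Real.log 2 = n * ((P - ε) * X * Real.log 2) := by
      rw [Finset.sum_const, Finset.card_range, nsmul_eq_mul]
    rw [← this]
    exact Finset.sum_le_sum fun k _ => hfull _
  have f2 := odd_full hp' h1' (m := S * R) Yv D₀ hYv1 f1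
  -- step 2
  have f3 := diff_full hp' h1' (S := S) (R := R) (X := X) (fun k => Yv (2 * k + 1))
    (Yv (2 * (S * R))) D (fun ω ω' _ _ h i => heven' ω ω' h (S * R) le_rfl i)
  -- step 3
  set u : Ω' → Fin S → Fin R → Fin P → ℝ := fun ω s j i =>
    Yv (2 * (S * R)) ω i - Yv (2 * (j + R * s) + 1) ω i with hu
  have hidx : ∀ (s : Fin S) (j : Fin R), 2 * ((j : ℕ) + R * s) + 1 ≤ 2 * (S * R) := by
    intro s j
    have := (finProdFinEquiv (s, j)).2
    rw [finProdFinEquiv_apply_val] at this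
    simp only at this
    omega
  have hu2 : ∀ ω, 0 < p' ω → ∀ s j i, |u ω s j i| ≤ 2 := by
    intro ω hω s j i
    have b1 := hYv1 _ le_rfl ω hω i
    have b2 := hYv1 _ (hidx s j) ω hω i
    simp only [hu]
    rw [abs_le] at b1 b2 ⊢
    constructor <;> linarith
  set ε₁ : ℝ := κ * (ε + 1 / X) with hε₁
  have hε₁0 : 0 ≤ ε₁ := by positivity
  have f4 : ((S * R * P : ℕ) - ε₁) * X * Real.log 2 ≤
      CH p' (fun ω s j i => ⌊(2 : ℝ) ^ X * u ω s j i⌋) D := by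
    have e1 : (n : ℝ) * ((P - ε) * X * Real.log 2) - (S * R : ℕ) * P *
        (X * Real.log 2 + Real.log 7) ≤
        CH p' (fun ω s j i => ⌊(2 : ℝ) ^ X * u ω s j i⌋) D + (S * R : ℕ) * P * Real.log 7 :=
      f2.trans f3
    have e2 : Real.log 7 ≤ 3 * Real.log 2 := by
      have : (3 : ℝ) * Real.log 2 = Real.log (2 ^ 3) := by
        rw [Real.log_pow]
        norm_num
      rw [this]
      exact Real.log_le_log (by norm_num) (by norm_num)
    have e3 : ε₁ * X * Real.log 2 = κ * (ε * X + 1) * Real.log 2 := by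
      rw [hε₁]
      field_simp
    have e4 : ((S * R * P : ℕ) - ε₁) * X * Real.log 2 =
        ((S * R : ℕ) * P) * X * Real.log 2 - κ * (ε * X + 1) * Real.log 2 := by
      rw [← e3]
      push_cast
      ring
    rw [e4, hκ]
    set q : ℝ := ((S * R : ℕ) : ℝ) with hq
    have hq0 : 0 ≤ q := Nat.cast_nonneg _
    have e5 : (n : ℝ) = 2 * q := by
      rw [hn, hq]
      push_cast
      ring
    rw [e5] at e1
    have e6 : (q * P) * Real.log 7 ≤ (q * P) * (3 * Real.log 2) :=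
      mul_le_mul_of_nonneg_left e2 (by positivity)
    have e7 : 0 ≤ q * (ε * X * Real.log 2) := by positivity
    have e8 : 0 ≤ q * P * (ε * X * Real.log 2) := by positivity
    have e9 : 0 ≤ q * Real.log 2 := by positivity
    nlinarith
  have f5 := hA Ω' _ p' hp' h1' D u X ε₁ hX hε₁0 hu2 f4
  -- step 4
  have hcard : Fintype.card (Fin S × Hi) = r := by
    rw [Fintype.card_prod, Fintype.card_fin, Fintype.card_coe]
  set e : Fin S × Hi ≃ Fin r := Fintype.equivFinOfCardEq hcard with he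
  set M : Ω' → Fin r → ℝ := fun ω q => ∑ j, mon (e.symm q).2.1 (u ω (e.symm q).1 j) with hM
  have f6 : CH p' (fun ω s (γ : Hi) => ⌊(2 : ℝ) ^ X * ∑ j, mon γ.1 (u ω s j)⌋) D ≤
      CH p' (fun ω => dv X (M ω)) D := by
    refine CH_mono_left hp' ?_
    intro ω ω' _ _ h
    simp only [Prod.mk.injEq] at h
    funext s γ
    have := congrFun h.1 (e (s, γ))
    simp only [dv, hM, Equiv.symm_apply_apply] at this
    exact this
  set Am : (Fin (S * R) → Fin P → ℤ) × Ω × 𝒞 → Matrix (Fin c) (Fin r) ℝ := fun d =>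
    Matrix.of fun i q => B 0 d.2.2 (e.symm q).2.1 i - B (e.symm q).1.succ d.2.2 (e.symm q).2.1 i
    with hAm
  set V : Ω' → Fin c → ℝ := fun ω => N (W' n ω) with hV
  set b' : ℝ := b + b₀ with hb'
  have hb'0 : 0 ≤ b' := by positivity
  have hbb : (2 : ℝ) ^ b' = 2 ^ b * 2 ^ b₀ := by
    rw [hb', Real.rpow_add (by norm_num), Real.rpow_natCast]
  have h2b1 : (1 : ℝ) ≤ 2 ^ b := Real.one_le_rpow (by norm_num) hb
  have h2b0 : (3 : ℝ) ≤ 2 ^ b₀ := by
    have : 0 ≤ ((S * R : ℕ) : ℝ) * LL := mul_nonneg (Nat.cast_nonneg _) hLL0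
    have : (0 : ℝ) ≤ n := Nat.cast_nonneg _
    linarith
  have hMb : ∀ ω, 0 < p' ω → ∀ q, |M ω q| ≤ KM := by
    intro ω hω q
    refine (Finset.abs_sum_le_sum_abs _ _).trans ?_
    have a1 : ∀ j ∈ (univ : Finset (Fin R)), |mon (e.symm q).2.1 (u ω (e.symm q).1 j)| ≤
        ∑ γ ∈ Hi, bndc γ := fun j _ =>
      ((mon_lip (e.symm q).2.1 (y := u ω (e.symm q).1 j) (z := u ω (e.symm q).1 j) (le_refl 0)
        (hu2 ω hω _ j) (hu2 ω hω _ j) (fun l => by rw [sub_self, abs_zero])).1).trans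
        (Finset.single_le_sum (f := fun γ => bndc γ) (fun γ _ => hbnd0 γ) (e.symm q).2.2)
    refine (Finset.sum_le_sum a1).trans ?_
    rw [Finset.sum_const, Finset.card_univ, Fintype.card_fin, nsmul_eq_mul]
    linarith
  have hAmb : ∀ ω, 0 < p' ω → ∀ i q, |Am (D ω) i q| ≤ (2 : ℝ) ^ b' := by
    intro ω hω i q
    obtain ⟨c1, c2⟩ := hs 0 (Nat.zero_le _) ω hω
    have a1 := hB _ c1 0 (e.symm q).2.1 (e.symm q).2.2 i
    have a2 := hB _ c1 (e.symm q).1.succ (e.symm q).2.1 (e.symm q).2.2 i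
    rw [c2] at a1 a2
    change |B 0 (C' ω) (e.symm q).2.1 i - B (e.symm q).1.succ (C' ω) (e.symm q).2.1 i| ≤ _
    refine (abs_sub _ _).trans ?_
    rw [hbb]
    nlinarith
  have hAmd : ∀ ω, 0 < p' ω → ∃ σ : Fin c → Fin r,
      (2 : ℝ) ^ (-b') ≤ |((Am (D ω)).submatrix id σ).det| := by
    intro ω hω
    obtain ⟨c1, c2⟩ := hs 0 (Nat.zero_le _) ω hω
    obtain ⟨σ, hσ⟩ := hdet _ c1
    refine ⟨fun j => e (σ j), ?_⟩
    have a1 : (2 : ℝ) ^ (-b') ≤ 2 ^ (-b) :=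
      Real.rpow_le_rpow_of_exponent_le (by norm_num) (by
        have : (0 : ℝ) ≤ b₀ := Nat.cast_nonneg _
        rw [hb']
        linarith)
    refine a1.trans (hσ.trans (le_of_eq ?_))
    congr 2
    ext i j
    simp only [Matrix.of_apply, Matrix.submatrix_apply, id_eq, hAm, Equiv.symm_apply_apply, hD, hD₀]
    rw [c2]
  have hlin : ∀ ω ω', 0 < p' ω → 0 < p' ω' → D ω = D ω' → ∀ i,
      |(2 : ℝ) ^ X * (V ω i - V ω' i - (Am (D ω) *ᵥ (fun q => M ω q - M ω' q)) i)| ≤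
        (2 : ℝ) ^ b' := by
    intro ω ω' hω hω' h i
    have hCC : C' ω = C' ω' := by
      simp only [hD, hD₀, Prod.mk.injEq] at h
      exact h.2.2
    have hWW : W' 0 ω = W' 0 ω' := by
      simp only [hD, hD₀, Prod.mk.injEq] at h
      exact h.2.1
    have hst : ∀ ω, 0 < p' ω → ∀ k < 2 * (S * R), ∀ z : Fin P → ℝ, (∀ l, |z l| ≤ 1) → ∀ i,
      |(2 : ℝ) ^ X * (L (W' (k + 1) ω) z i - L (W' k ω) z i -
        ∑ γ ∈ Hi, B (aix S R k) (C' ω) γ i *
        (mon γ (fun l => z l - Yv (k + 1) ω l) - mon γ (fun l => z l - Yv k ω l)))| ≤ 2 ^ b := by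
      intro ω hω k hk z hz i
      obtain ⟨c1, c2⟩ := hs (k + 1) hk ω hω
      obtain ⟨c3, c4⟩ := hs k hk.le ω hω
      have := hL (aix S R k) _ _ c1 c3 (hc k hk ω hω) (c2.trans c4.symm) z hz i
      rw [c2] at this
      exact this
    have key := height_lin (X := X) Hi (fun s γ i => B s (C' ω) γ i)
      (fun k => Yv k ω) (fun k => Yv k ω') (fun k => L (W' k ω)) (fun k => L (W' k ω'))
      (V ω) (V ω') (K := 2 ^ b)
      (fun s γ hγ i => by
        obtain ⟨c1, c2⟩ := hs 0 (Nat.zero_le _) ω hω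
        have := hB _ c1 s γ hγ i
        rw [c2] at this
        exact this)
      (fun j hj l => hYv1 j hj ω hω l) (fun j hj l => hYv1 j hj ω' hω' l)
      (fun j hj l => heven' ω ω' h j hj l)
      (fun i => hN _ (hs n le_rfl ω hω).1 i) (fun i => hN _ (hs n le_rfl ω' hω').1 i)
      (fun k hk z hz i => hst ω hω k hk z hz i)
      (fun k hk z hz i => by
        have := hst ω' hω' k hk z hz i
        rw [← hCC] at this
        exact this)
      (by simp only [hWW])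
      (fun z z' hz hz' δ hδ hzz i => hLip _ (hs 0 (Nat.zero_le _) ω hω).1 z z' hz hz' δ hδ hzz i) i
    have e1 : (Am (D ω) *ᵥ (fun q => M ω q - M ω' q)) i =
        ∑ s : Fin S, ∑ γ ∈ Hi, (B 0 (C' ω) γ i - B s.succ (C' ω) γ i) *
      ((∑ j : Fin R, mon γ (fun l => Yv (2 * (S * R)) ω l - Yv (2 * (j + R * s) + 1) ω l)) -
       (∑ j : Fin R, mon γ (fun l => Yv (2 * (S * R)) ω' l - Yv (2 * (j + R * s) + 1) ω' l))) := by
      unfold Matrix.mulVec dotProduct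
      rw [← Equiv.sum_comp e, Fintype.sum_prod_type]
      refine Finset.sum_congr rfl fun s _ => ?_
      rw [← Finset.sum_coe_sort Hi]
      refine Finset.sum_congr rfl fun γ _ => ?_
      simp only [hAm, Matrix.of_apply, Equiv.symm_apply_apply, hM, hD, hD₀, hu]
    rw [e1]
    refine key.trans ?_
    rw [hbb]
    exact mul_le_mul_of_nonneg_left hb₀.le (by positivity)
  have f7 := lin_full hp' h1' D M V Am KM b' X hKM1 hb'0 hMb hAmb hAmd hlin
  -- step 5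
  have f8 : CH p' (fun ω => dv X (V ω)) D ≤
      CH p (fun ω => dv X (N ω)) (fun ω => (dv X (y ω), C ω)) := by
    have a1 : CH p' (fun ω => dv X (V ω)) D ≤
        CH p' (fun ω => dv X (N (W' n ω))) (fun ω => (dv X (y (W' n ω)), C' ω)) := by
      refine CH_mono_cond hp' ?_
      intro ω ω' _ _ h
      refine Prod.ext (heven ω ω' h (S * R) le_rfl) ?_
      simp only [hD, hD₀, Prod.mk.injEq] at h
      exact h.2.2
    refine a1.trans (le_of_eq ?_)
    exact CH_comp_of_law (hlaw n le_rfl) (fun s : Ω × 𝒞 => dv X (N s.1))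
      (fun s => (dv X (y s.1), s.2))
  -- the end
  have hcr : c ≤ r := by
    obtain ⟨ω, hω⟩ : ∃ ω, 0 < p' ω := by
      by_contra hcon
      push Not at hcon
      have : ∑ ω, p' ω = 0 := Finset.sum_eq_zero fun ω _ => le_antisymm (hcon ω) (hp' ω)
      rw [h1'] at this
      exact one_ne_zero this
    obtain ⟨σ, hσ⟩ := hAmd ω hω
    refine le_of_minor (Am (D ω)) σ fun h0 => ?_
    rw [h0, abs_zero] at hσ
    exact absurd hσ (not_le.2 (Real.rpow_pos_of_pos (by norm_num) _))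
  have g1 := log_bd1 (le_trans zero_le_one hKM1) X
  have g2 := log_bd2 c r hb'0
  have hrc : (0 : ℝ) ≤ (r : ℝ) - c := by
    have : (c : ℝ) ≤ r := by exact_mod_cast hcr
    linarith
  have g3 := mul_le_mul_of_nonneg_left g1 hrc
  have g4 := mul_le_mul_of_nonneg_left g2 (Nat.cast_nonneg c)
  have g5 : Real.sqrt (ε₁ + 1 / X) ≤ Real.sqrt (κ + 1) * Real.sqrt (ε + 1 / X) := by
    rw [← Real.sqrt_mul (by positivity)]
    refine Real.sqrt_le_sqrt ?_
    rw [hε₁]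
    linarith
  have hsq : 0 ≤ Real.sqrt (ε + 1 / X) := Real.sqrt_nonneg _
  have g6 : (r - A * (Real.sqrt (κ + 1) * Real.sqrt (ε + 1 / X))) * (X * Real.log 2) ≤
      (r - A * Real.sqrt (ε₁ + 1 / X)) * (X * Real.log 2) := by
    refine mul_le_mul_of_nonneg_right ?_ (by positivity)
    have := mul_le_mul_of_nonneg_left g5 hA0
    linarith
  set sq := Real.sqrt (ε + 1 / X) with hsq'
  have f9 : (r - A * (Real.sqrt (κ + 1) * sq)) * X * Real.log 2 - A ≤
      CH p (fun ω => dv X (N ω)) (fun ω => (dv X (y ω), C ω)) +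
      (r - c : ℝ) * (X * Real.log 2 + l1) + c * ((c + 2) * b' + l2) := by
    linarith
  have h3 : 0 ≤ sq * X * Real.log 2 := by positivity
  have h4 : 0 ≤ (A + r * l1 + c * l2 + c * (c + 2) * (1 + b₀)) * (sq * X * Real.log 2) := by
    positivity
  have h5 : 0 ≤ (A * Real.sqrt (κ + 1) + A + r * l1 + c * l2) * b := by positivity
  have h6 : 0 ≤ (c : ℝ) * (c + 2) * b₀ * b := by positivity
  have h7 : 0 ≤ (c : ℝ) * l1 := by positivity
  have h8 : 0 ≤ (c : ℝ) * (c + 2) := by positivity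
  have h9 : 0 ≤ A * Real.sqrt (κ + 1) := by positivity
  rw [hb'] at f9
  have h10 : (c - (A * Real.sqrt (κ + 1) + A + r * l1 + c * l2 + c * (c + 2) * (1 + b₀)) * sq) * X *
      Real.log 2 = c * X * Real.log 2 - A * (Real.sqrt (κ + 1) * sq) * X * Real.log 2 -
      (A + r * l1 + c * l2 + c * (c + 2) * (1 + b₀)) * (sq * X * Real.log 2) := by ring
  have h11 : (A * Real.sqrt (κ + 1) + A + r * l1 + c * l2 + c * (c + 2) * (1 + b₀)) * b =
      (A * Real.sqrt (κ + 1) + A + r * l1 + c * l2) * b + c * (c + 2) * b₀ * b + c * (c + 2) * b := by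
    ring
  rw [h10, h11]
  have h12 : (r - A * (Real.sqrt (κ + 1) * sq)) * X * Real.log 2 =
      r * X * Real.log 2 - A * (Real.sqrt (κ + 1) * sq) * X * Real.log 2 := by ring
  rw [h12] at f9
  have h13 : (r - c : ℝ) * (X * Real.log 2 + l1) = r * X * Real.log 2 - c * X * Real.log 2 +
      r * l1 - c * l1 := by ring
  rw [h13] at f9
  have h14 : (c : ℝ) * ((c + 2) * (b + b₀) + l2) = c * (c + 2) * b + c * (c + 2) * b₀ + c * l2 := by
    ring
  rw [h14] at f9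
  have h15 : (c : ℝ) * (c + 2) * (1 + b₀) = c * (c + 2) + c * (c + 2) * b₀ := by ring
  rw [h15]
  rw [h15] at h4
  linarith

end Pool.GNZ
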